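import Pool.Agent.Lib.MP_688fd0_co.SQ4.H95.Ret

/-!
COUNT: closed classes of caps when every strand has `2 e` rungs and at most `e` of them go to the same strand.
-/

set_option autoImplicit false

namespace Pool.Agent.Lib.MP_688fd0_co.SQ4

open Pool.Agent.Lib.MP_688fd0_co.SQ2.V Pool.Agent.Lib.MP_688fd0_co.SQ2.V.Puz

section defs

variable {S R : Type} [DecidableEq S] (P : Puz S R)

/-- A closed class of caps. -/
def Closed (K : R → Prop) : Prop := ∀ r r' v, K r → P.Adj r r' v → K (P.tau r')

/-- The rungs adjacent to a rung of `K`. -/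
def Nb (K : R → Prop) (r' : R) : Prop := ∃ r v, K r ∧ P.Adj r r' v

/-- `K` consists of all the `e` rungs over a perfect matching of the strands. -/
def Mat (e : ℕ) (K : R → Prop) : Prop :=
  ∀ v, ∃ u, {r | P.On r v ∧ P.oth r v = u}.ncard = e ∧ ∀ r, P.On r v → (K r ↔ P.oth r v = u)

/-- MODE F: the caps are in `K`, the cups outside. -/
structure ModeF (e : ℕ) (K : R → Prop) : Prop where
  closed : Closed P K
  mat : Mat P e K
  nb : ∀ r, Nb P K r ↔ ¬ K r
  tau : ∀ r, K (P.tau r) ↔ ¬ K r
  conn : ∀ r r', K r → K r' → Relation.ReflTransGen (Nx P) r r'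

end defs

section count

variable {S R : Type} [Fintype S] [DecidableEq S] [Fintype R] {P : Puz S R}

open Classical in
/-- Double counting of ends. -/
theorem two_card (Y : Finset R) : 2 * Y.card = ∑ v : S, (Y.filter fun r => P.On r v).card := by
  have h1 := Finset.sum_card_bipartiteAbove_eq_sum_card_bipartiteBelow (s := Y) (t := (Finset.univ : Finset S))
    (fun r v => P.On r v)
  have h2 : ∑ r ∈ Y, (Finset.univ.filter fun v => P.On r v).card = ∑ v : S, (Y.filter fun r => P.On r v).card := h1
  rw [← h2, Finset.sum_congr rfl (g := fun _ => 2), Finset.sum_const, smul_eq_mul, mul_comm]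
  intro r _
  exact card_on_full P r Finset.univ (Finset.mem_univ _) (Finset.mem_univ _)

variable {e : ℕ} (he : 0 < e) (hdeg : ∀ v, {r | P.On r v}.ncard = 2 * e)
  (hpar : ∀ v u, {r | P.On r v ∧ P.oth r v = u}.ncard ≤ e)

open Classical in
omit [Fintype S] in
include hdeg in
theorem deg_card (v : S) : (Finset.univ.filter fun r => P.On r v).card = 2 * e := by
  rw [← hdeg v, ← Set.ncard_coe_finset]
  congr 1
  ext r
  simp

open Classical in
omit [Fintype S] in
include hpar in
theorem par_card (v u : S) : (Finset.univ.filter fun r => P.On r v ∧ P.oth r v = u).card ≤ e := by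
  refine le_trans (le_of_eq ?_) (hpar v u)
  rw [← Set.ncard_coe_finset]
  congr 1
  ext r
  simp

open Classical in
include hdeg hpar in
/-- Strand by strand. -/
theorem strand (K : R → Prop) (v : S) :
    ((Finset.univ.filter fun r => K r).filter fun r => P.On r v).card ≤
      ((Finset.univ.filter fun r => Nb P K r).filter fun r => P.On r v).card ∧
    (((Finset.univ.filter fun r => K r).filter fun r => P.On r v).card =
      ((Finset.univ.filter fun r => Nb P K r).filter fun r => P.On r v).card →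
      (∀ r, P.On r v → K r ∧ Nb P K r) ∨
      (∃ u, {r | P.On r v ∧ P.oth r v = u}.ncard = e ∧ ∀ r, P.On r v → (K r ↔ P.oth r v = u) ∧ (Nb P K r ↔ ¬ K r)) ∨
      (∀ r, P.On r v → ¬ K r ∧ ¬ Nb P K r)) := by
  set Kv := (Finset.univ.filter fun r => K r).filter fun r => P.On r v with hKv
  set Nv := (Finset.univ.filter fun r => Nb P K r).filter fun r => P.On r v with hNv
  set D : Finset R := Finset.univ.filter fun r => P.On r v with hD
  have mK : ∀ r, r ∈ Kv ↔ K r ∧ P.On r v := by intro r; simp [hKv]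
  have mN : ∀ r, r ∈ Nv ↔ Nb P K r ∧ P.On r v := by intro r; simp [hNv]
  have mD : ∀ r, r ∈ D ↔ P.On r v := by intro r; simp [hD]
  have cD : D.card = 2 * e := deg_card hdeg v
  by_cases h0 : Kv = ∅
  · rw [h0, Finset.card_empty]
    refine ⟨Nat.zero_le _, fun h => Or.inr (Or.inr fun r hr => ?_)⟩
    have h1 : Nv = ∅ := Finset.card_eq_zero.1 h.symm
    refine ⟨fun h' => ?_, fun h' => ?_⟩
    · have := (mK r).2 ⟨h', hr⟩
      rw [h0] at this
      exact absurd this (Finset.notMem_empty r)
    · have := (mN r).2 ⟨h', hr⟩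
      rw [h1] at this
      exact absurd this (Finset.notMem_empty r)
  obtain ⟨r0, hr0⟩ := Finset.nonempty_iff_ne_empty.2 h0
  have hr0' := (mK r0).1 hr0
  set u := P.oth r0 v with hu
  by_cases h1 : ∀ r ∈ Kv, P.oth r v = u
  · set Pa : Finset R := Finset.univ.filter fun r => P.On r v ∧ P.oth r v = u with hPa
    have mP : ∀ r, r ∈ Pa ↔ P.On r v ∧ P.oth r v = u := by intro r; simp [hPa]
    have cP : Pa.card ≤ e := par_card hpar v u
    have s1 : Kv ⊆ Pa := fun r hr => (mP r).2 ⟨((mK r).1 hr).2, h1 r hr⟩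
    have s2 : Pa ⊆ D := fun r hr => (mD r).2 ((mP r).1 hr).1
    have s3 : D \ Pa ⊆ Nv := by
      intro r hr
      rw [Finset.mem_sdiff, mD, mP] at hr
      refine (mN r).2 ⟨⟨r0, v, hr0'.1, hr0'.2, hr.1, fun h => hr.2 ⟨hr.1, h.symm⟩⟩, hr.1⟩
    have s4 : Nv ⊆ D := fun r hr => (mD r).2 ((mN r).1 hr).2
    have c3 : (D \ Pa).card + Pa.card = 2 * e := by
      rw [Finset.card_sdiff_add_card_eq_card s2, cD]
    have c4 := Finset.card_le_card s3
    have c5 := Finset.card_le_card s1
    refine ⟨by omega, fun h => Or.inr (Or.inl ⟨u, ?_, fun r hr => ?_⟩)⟩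
    · have : Pa.card = e := by omega
      rw [← this, ← Set.ncard_coe_finset]
      congr 1
      ext r
      simp [hPa]
    · have e1 : Kv = Pa := Finset.eq_of_subset_of_card_le s1 (by omega)
      have e2 : D \ Pa = Nv := Finset.eq_of_subset_of_card_le s3 (by omega)
      have k1 : K r ↔ P.oth r v = u := by
        constructor
        · exact fun h' => h1 r ((mK r).2 ⟨h', hr⟩)
        · intro h'
          have : r ∈ Kv := by rw [e1, mP]; exact ⟨hr, h'⟩
          exact ((mK r).1 this).1
      refine ⟨k1, ?_⟩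
      constructor
      · intro h' h''
        have h3 : r ∈ Nv := (mN r).2 ⟨h', hr⟩
        rw [← e2, Finset.mem_sdiff, mP] at h3
        exact h3.2 ⟨hr, k1.1 h''⟩
      · intro h'
        have h3 : r ∈ D \ Pa := by
          rw [Finset.mem_sdiff, mD, mP]
          exact ⟨hr, fun h'' => h' (k1.2 h''.2)⟩
        rw [e2] at h3
        exact ((mN r).1 h3).1
  · push Not at h1
    obtain ⟨r1, hr1, hne⟩ := h1
    have hr1' := (mK r1).1 hr1
    have e1 : Nv = D := by
      ext r
      rw [mN, mD]
      refine ⟨fun h => h.2, fun h => ⟨?_, h⟩⟩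
      by_cases h2 : P.oth r v = u
      · exact ⟨r1, v, hr1'.1, hr1'.2, h, fun h3 => hne (h3.trans h2)⟩
      · exact ⟨r0, v, hr0'.1, hr0'.2, h, fun h3 => h2 h3.symm⟩
    have s1 : Kv ⊆ D := fun r hr => (mD r).2 ((mK r).1 hr).2
    rw [e1]
    refine ⟨Finset.card_le_card s1, fun h => Or.inl fun r hr => ?_⟩
    have e2 : Kv = D := Finset.eq_of_subset_of_card_le s1 (by omega)
    refine ⟨((mK r).1 (by rw [e2, mD]; exact hr)).1, ((mN r).1 (by rw [e1, mD]; exact hr)).1⟩

include hdeg hpar in
/-- COUNT: a closed class of caps is everything or of mode F. -/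
theorem count0 (hC : ∀ v w, Relation.ReflTransGen (fun a b => ∃ r, P.On r a ∧ P.On r b) v w) {K : R → Prop}
    (hK : Closed P K) (hne : ∃ r, K r) :
    (∀ r, K r) ∨ (Mat P e K ∧ (∀ r, Nb P K r ↔ ¬ K r) ∧ ∀ r, K (P.tau r) ↔ ¬ K r) := by
  classical
  set A : Finset R := Finset.univ.filter fun r => K r with hA
  set N : Finset R := Finset.univ.filter fun r => Nb P K r with hN
  have mA : ∀ r, r ∈ A ↔ K r := by intro r; simp [hA]
  have mN : ∀ r, r ∈ N ↔ Nb P K r := by intro r; simp [hN]
  have c1 : N.card ≤ A.card := by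
    refine Finset.card_le_card_of_injOn P.tau ?_ (fun a _ b _ h => P.tau.injective h)
    intro r hr
    obtain ⟨q, v, h1, h2⟩ := (mN r).1 (Finset.mem_coe.1 hr)
    exact Finset.mem_coe.2 ((mA _).2 (hK q r v h1 h2))
  have c2 := two_card (P := P) A
  have c3 := two_card (P := P) N
  have c4 : ∀ v ∈ (Finset.univ : Finset S), (A.filter fun r => P.On r v).card ≤ (N.filter fun r => P.On r v).card :=
    fun v _ => (strand hdeg hpar K v).1
  have c5 := Finset.sum_le_sum c4
  have c6 : ∑ v : S, (A.filter fun r => P.On r v).card = ∑ v : S, (N.filter fun r => P.On r v).card := by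
    omega
  have c7 := (Finset.sum_eq_sum_iff_of_le c4).1 c6
  have hty := fun v => (strand hdeg hpar K v).2 (c7 v (Finset.mem_univ v))
  have hcard : N.card = A.card := by omega
  -- the types
  have stepA : ∀ v w, (∃ r, P.On r v ∧ P.On r w) → (∀ r, P.On r v → K r ∧ Nb P K r) →
      (∀ r, P.On r w → K r ∧ Nb P K r) := by
    rintro v w ⟨r, h1, h2⟩ h
    obtain ⟨h3, h4⟩ := h r h1
    rcases hty w with t | ⟨u, _, t⟩ | t
    · exact t
    · exact absurd h3 ((t r h2).2.1 h4)
    · exact absurd h3 (t r h2).1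
  have stepB : ∀ v w, (∃ r, P.On r v ∧ P.On r w) →
      (∃ u, {r | P.On r v ∧ P.oth r v = u}.ncard = e ∧
        ∀ r, P.On r v → (K r ↔ P.oth r v = u) ∧ (Nb P K r ↔ ¬ K r)) →
      (∃ u, {r | P.On r w ∧ P.oth r w = u}.ncard = e ∧
        ∀ r, P.On r w → (K r ↔ P.oth r w = u) ∧ (Nb P K r ↔ ¬ K r)) := by
    rintro v w ⟨r, h1, h2⟩ ⟨u, _, h⟩
    have h4 := (h r h1).2
    rcases hty w with t | t | t
    · exact absurd (t r h2).1 (h4.1 (t r h2).2)
    · exact t
    · exact absurd (h4.2 (t r h2).1) (t r h2).2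
  obtain ⟨r0, hr0⟩ := hne
  have hv0 : P.On r0 (P.x r0) := Or.inl rfl
  rcases hty (P.x r0) with t | t | t
  · left
    have hall : ∀ w, ∀ r, P.On r w → K r ∧ Nb P K r := by
      intro w
      induction hC (P.x r0) w with
      | refl => exact t
      | tail _ h ih => exact stepA _ _ h ih
    exact fun r => (hall (P.x r) r (Or.inl rfl)).1
  · right
    have hall : ∀ w, (∃ u, {r | P.On r w ∧ P.oth r w = u}.ncard = e ∧
        ∀ r, P.On r w → (K r ↔ P.oth r w = u) ∧ (Nb P K r ↔ ¬ K r)) := by
      intro w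
      induction hC (P.x r0) w with
      | refl => exact t
      | tail _ h ih => exact stepB _ _ h ih
    have hnb : ∀ r, Nb P K r ↔ ¬ K r := by
      intro r
      obtain ⟨u, _, h⟩ := hall (P.x r)
      exact (h r (Or.inl rfl)).2
    refine ⟨fun v => ?_, hnb, fun r => ?_⟩
    · obtain ⟨u, h1, h2⟩ := hall v
      exact ⟨u, h1, fun r hr => (h2 r hr).1⟩
    · constructor
      · intro h1 h2
        -- `tau` maps the complement onto `K`
        have him : N.map P.tau.toEmbedding = A := by
          refine Finset.eq_of_subset_of_card_le ?_ (by rw [Finset.card_map]; omega)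
          intro q hq
          rw [Finset.mem_map_equiv] at hq
          obtain ⟨a, v, h3, h4⟩ := (mN _).1 hq
          have := hK a _ v h3 h4
          rw [Equiv.apply_symm_apply] at this
          exact (mA q).2 this
        have h3 : P.tau r ∈ A := (mA _).2 h1
        rw [← him, Finset.mem_map_equiv, Equiv.symm_apply_apply, mN, hnb] at h3
        exact h3 h2
      · intro h1
        obtain ⟨a, v, h3, h4⟩ := (hnb r).2 h1
        exact hK a r v h3 h4
  · exact absurd hr0 (t r0 hv0).1

include he hdeg hpar in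
/-- COUNT with strong connectivity. -/
theorem count (hC : ∀ v w, Relation.ReflTransGen (fun a b => ∃ r, P.On r a ∧ P.On r b) v w) {K : R → Prop}
    (hK : Closed P K) (hne : ∃ r, K r) : (∀ r, K r) ∨ ModeF P e K := by
  rcases count0 hdeg hpar hC hK hne with h | ⟨h1, h2, h3⟩
  · exact Or.inl h
  refine Or.inr ⟨hK, h1, h2, h3, ?_⟩
  intro r r' hr hr'
  have hX : Closed P fun q => Relation.ReflTransGen (Nx P) r q := fun a b v h h' => h.tail ⟨b, v, h', rfl⟩
  have hXK : ∀ q, Relation.ReflTransGen (Nx P) r q → K q := by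
    intro q hq
    induction hq with
    | refl => exact hr
    | tail _ h ih =>
      obtain ⟨a, v, h4, rfl⟩ := h
      exact hK _ a v ih h4
  rcases count0 hdeg hpar hC hX ⟨r, Relation.ReflTransGen.refl⟩ with h | ⟨h4, _, _⟩
  · exact h r'
  · have hv : P.On r' (P.x r') := Or.inl rfl
    obtain ⟨u, h5, h6⟩ := h1 (P.x r')
    obtain ⟨u', h7, h8⟩ := h4 (P.x r')
    have hu : u' = u := by
      have h9 : {r | P.On r (P.x r') ∧ P.oth r (P.x r') = u'}.Nonempty := by
        rw [← Set.ncard_pos (Set.toFinite _), h7]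
        exact he
      obtain ⟨q, hq1, hq2⟩ := h9
      have h10 := hXK q ((h8 q hq1).2 hq2)
      exact hq2.symm.trans ((h6 q hq1).1 h10)
    rw [hu] at h8
    exact (h8 r' hv).2 ((h6 r' hv).1 hr')

include he hdeg hpar in
/-- Either everything is strongly connected or there is a class of mode F. -/
theorem scon_or (hC : ∀ v w, Relation.ReflTransGen (fun a b => ∃ r, P.On r a ∧ P.On r b) v w) :
    SCon P ∨ ∃ K, ModeF P e K := by
  by_cases h : ∃ K : R → Prop, Closed P K ∧ (∃ r, K r) ∧ ∃ r, ¬ K r
  · obtain ⟨K, h1, h2, r, h3⟩ := h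
    rcases count he hdeg hpar hC h1 h2 with h4 | h4
    · exact absurd (h4 r) h3
    · exact Or.inr ⟨K, h4⟩
  · left
    intro r r'
    by_contra hno
    exact h ⟨fun q => Relation.ReflTransGen (Nx P) r q, fun a b v h h' => h.tail ⟨b, v, h', rfl⟩,
      ⟨r, Relation.ReflTransGen.refl⟩, r', hno⟩

end count

/-! ### Reachability inside a strongly connected class of caps -/

section reach

variable {S R : Type} [DecidableEq S] [Finite S] {P : Puz S R} {Tok : Type}

/-- A class of caps inside which all walks can be closed. -/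
def RETK (P : Puz S R) (K : R → Prop) : Prop :=
  Closed P K ∧ ∀ r r', K r → K r' → Relation.ReflTransGen (Nx P) r r'

omit [Finite S] in
theorem ModeF.retK {e : ℕ} {K : R → Prop} (h : ModeF P e K) : RETK P K := ⟨h.closed, h.conn⟩

omit [Finite S] in
theorem SCon.retK (h : SCon P) : RETK P fun _ => True := ⟨fun _ _ _ _ _ => trivial, fun r r' _ _ => h r r'⟩

omit [Finite S] in
theorem closed_act {K : R → Prop} (hK : Closed P K) (c : R × S) {s : St S R Tok} (h : K s.1) : K (act P c s).1 := by
  by_cases h1 : P.Adj s.1 c.1 c.2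
  · rw [act_of h1]
    exact hK s.1 c.1 c.2 h h1
  · rw [act_not h1]
    exact h

omit [Finite S] in
theorem closed_runW {K : R → Prop} (hK : Closed P K) (l : List (R × S)) :
    ∀ {s : St S R Tok}, K s.1 → K (runW P l s).1 := by
  induction l with
  | nil => intro s h; exact h
  | cons c l ih => intro s h; exact ih (closed_act hK c h)

omit [Finite S] in
theorem ReachW.inK {K : R → Prop} (hK : Closed P K) {s s' : St S R Tok} (h : ReachW P s s') (h1 : K s.1) : K s'.1 := by
  obtain ⟨l, rfl⟩ := h
  exact closed_runW hK l h1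

/-- Reachability is symmetric inside `K`. -/
theorem ReachW.symmK {K : R → Prop} (hK : RETK P K) {s s' : St S R Tok} (h : ReachW P s s') (h1 : K s.1) :
    ReachW P s' s := by
  have h2 := h.inK hK.1 h1
  obtain ⟨l, rfl⟩ := h
  obtain ⟨l', hl'⟩ := word_of_walk (P := P) (hK.2 _ _ h2 h1) (runW P l s).2
  have h3 : (runW P (l ++ l') (s.1, s.2)).1 = s.1 := by
    rw [runW_append]
    exact hl'
  have h4 := reachW_of_loop (P := P) (l ++ l') s.2 h3
  rw [runW_append] at h4
  exact ReachW.trans ⟨l', rfl⟩ h4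

/-- A step inside `K` does not change reachability. -/
theorem reachW_step_iffK {K : R → Prop} (hK : RETK P K) {s₀ : St S R Tok} {r r' : R} {v : S}
    (hr : K r) (ha : P.Adj r r' v) (pos : Tok → S) :
    ReachW P s₀ (r, pos) ↔ ReachW P s₀ (P.tau r', fun t => P.T r' (P.J r r' v (pos t))) := by
  constructor
  · intro h
    exact h.trans (reachW_step (s := (r, pos)) ha)
  · intro h
    have h1 : ReachW P (r, pos) (P.tau r', fun t => P.T r' (P.J r r' v (pos t))) := reachW_step (s := (r, pos)) ha
    exact h.trans (h1.symmK hK hr)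

end reach

end Pool.Agent.Lib.MP_688fd0_co.SQ4
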