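import Pool.Agent.Lib.MP_688fd0_co.SQ4.Iface
import Pool.Agent.Lib.MP_688fd0_co.SQ2.H41.ScaleS

/-!
SCALE for type C1: the heights of the reflections, the choice of `a`, `b` and of the scales.
-/

set_option autoImplicit false

namespace Pool.Agent.Lib.MP_688fd0_co.SQ4

open Pool.Agent.Lib.MP_688fd0_co.OSF Pool.Agent.Lib.MP_688fd0_co.SQ2 Pool.Agent.Lib.MP_688fd0_co.SQ3
open Subgroup

universe u v

namespace H95

/-- The `P`-height on the kernel of `eps`. -/
structure Hgt {Q : Type u} [Group Q] (P : ℕ) (eps : Q →* ℤˣ) (h : Q → ZMod P) : Prop where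
  mul : ∀ x y, eps x = 1 → eps y = 1 → h (x * y) = h x + h y
  zero : ∀ x, eps x = 1 → (orderOf x).Coprime P → h x = 0
  cop : ∀ x, eps x = 1 → h x = 0 → (orderOf x).Coprime P
  conj : ∀ x g, eps x = 1 → eps g = -1 → h (g * x * g⁻¹) = -h x

/-- Heights exist. -/
theorem exists_hgt {Q : Type u} [Group Q] [Finite Q] {P : ℕ} (hP : P.Prime)
    (hP2 : 2 < P) (Y : Subgroup Q) (hYc : Nat.card Y = P) (eps : Q →* ℤˣ)
    (hact : ∀ y ∈ Y, ∀ g : Q, g * y * g⁻¹ = y ^ ((eps g : ℤˣ) : ℤ)) (hQ : ¬ P ^ 2 ∣ Nat.card Q) :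
    ∃ h : Q → ZMod P, Hgt P eps h ∧ ∃ y, eps y = 1 ∧ h y ≠ 0 := by
  classical
  have hPf : Fact P.Prime := ⟨hP⟩
  obtain ⟨y, hy⟩ := exists_prime_orderOf_dvd_card' (G := Y) P (by rw [hYc])
  have hyo : orderOf (y : Q) = P := by rw [Subgroup.orderOf_coe, hy]
  have hk : ∀ g : Q, eps g = 1 → g * y = y * g := by
    intro g h
    have h1 := hact y y.2 g
    rw [h, Units.val_one, zpow_one] at h1
    exact mul_inv_eq_iff_eq_mul.1 h1
  have hyK : eps (y : Q) = 1 := by
    rcases Int.units_eq_one_or (eps (y : Q)) with h | h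
    · exact h
    · have h1 := hact y y.2 y
      rw [mul_inv_cancel_right, h, Units.val_neg, Units.val_one, zpow_neg_one] at h1
      exfalso
      have h3 : (y : Q) ^ 2 = 1 := by
        rw [pow_two]
        nth_rewrite 2 [h1]
        exact mul_inv_cancel _
      have h4 := orderOf_dvd_of_pow_eq_one h3
      rw [hyo] at h4
      exact absurd (Nat.le_of_dvd (by norm_num) h4) (by omega)
  set K := eps.ker with hK
  have hmK : ∀ x, x ∈ K ↔ eps x = 1 := fun x => MonoidHom.mem_ker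
  have hPK : P ∣ Nat.card (center K) := by
    have h1 : (⟨(y : Q), (hmK _).2 hyK⟩ : K) ∈ center K := by
      rw [Subgroup.mem_center_iff]
      rintro ⟨g, hg⟩
      exact Subtype.ext (hk g ((hmK g).1 hg))
    have h2 := orderOf_dvd_natCard (⟨⟨(y : Q), (hmK _).2 hyK⟩, h1⟩ : center K)
    rwa [Subgroup.orderOf_mk, Subgroup.orderOf_mk, hyo] at h2
  have hQK : ¬ P ^ 2 ∣ Nat.card K := fun h => hQ (h.trans (Subgroup.card_subgroup_dvd_card K))
  obtain ⟨h, hsurj, hker⟩ := H87.exists_part hP hPK hQK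
  have hkc : ¬ P ∣ Nat.card h.ker := by
    intro h1
    have h2 := h.ker.card_mul_index
    rw [Subgroup.index_ker, MonoidHom.range_eq_top.2 hsurj, Subgroup.card_top,
      Nat.card_congr Multiplicative.toAdd, Nat.card_zmod] at h2
    obtain ⟨d, hd⟩ := h1
    exact hQK ⟨d, by rw [← h2, hd]; ring⟩
  have key0 : ∀ z : Multiplicative (ZMod P), z.toAdd = 0 → z = 1 := fun z e => Multiplicative.toAdd.injective e
  let hh : Q → ZMod P := fun x => if hx : x ∈ K then (h ⟨x, hx⟩).toAdd else 0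
  have hhK : ∀ x (hx : x ∈ K), hh x = (h ⟨x, hx⟩).toAdd := fun x hx => dif_pos hx
  have hmul : ∀ x y, eps x = 1 → eps y = 1 → hh (x * y) = hh x + hh y := by
    intro x y hx hy
    have hx' := (hmK x).2 hx
    have hy' := (hmK y).2 hy
    rw [hhK _ (K.mul_mem hx' hy'), hhK _ hx', hhK _ hy', ← toAdd_mul, ← map_mul]
    rfl
  have hzero : ∀ x, eps x = 1 → (orderOf x).Coprime P → hh x = 0 := by
    intro x hx hc
    have hx' := (hmK x).2 hx
    have h1 : zpowers (⟨x, hx'⟩ : K) ≤ h.ker := by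
      refine hker _ ?_
      rw [Nat.card_zpowers, Subgroup.orderOf_mk]
      exact hc
    have h2 : h ⟨x, hx'⟩ = 1 := h1 (mem_zpowers _)
    rw [hhK _ hx', h2, toAdd_one]
  have hcop : ∀ x, eps x = 1 → hh x = 0 → (orderOf x).Coprime P := by
    intro x hx h0
    have hx' := (hmK x).2 hx
    rw [hhK _ hx'] at h0
    rw [Nat.coprime_comm, hP.coprime_iff_not_dvd]
    intro h1
    refine hkc ?_
    have h2 := orderOf_dvd_natCard (⟨⟨x, hx'⟩, MonoidHom.mem_ker.2 (key0 _ h0)⟩ : h.ker)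
    rw [Subgroup.orderOf_mk, Subgroup.orderOf_mk] at h2
    exact h1.trans h2
  have hy0 : hh y ≠ 0 := by
    intro h0
    have h1 := hcop y hyK h0
    rw [hyo, Nat.coprime_self] at h1
    exact hP.one_lt.ne' h1
  have hone : hh 1 = 0 := hzero 1 (map_one _) (by rw [orderOf_one]; exact Nat.coprime_one_left P)
  have hyz : ∀ j : ℕ, hh ((y : Q) ^ j) = j * hh y ∧ eps ((y : Q) ^ j) = 1 := by
    intro j
    induction j with
    | zero => refine ⟨?_, ?_⟩ <;> simp [hone]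
    | succ j ih =>
      refine ⟨?_, by rw [pow_succ, map_mul, ih.2, hyK, one_mul]⟩
      rw [pow_succ, hmul _ _ ih.2 hyK, ih.1]
      push_cast
      ring
  have hinv : ∀ x, eps x = 1 → hh x⁻¹ = -hh x := by
    intro x hx
    have h1 := hmul x x⁻¹ hx (by rw [map_inv, hx, inv_one])
    rw [mul_inv_cancel, hone] at h1
    exact (neg_eq_of_add_eq_zero_right h1.symm).symm
  refine ⟨hh, ⟨hmul, hzero, hcop, ?_⟩, y, hyK, hy0⟩
  intro x g hx hg
  -- write `x = x' * y ^ j` with `hh x' = 0`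
  set j := (hh x / hh y).val with hj
  have hjv : (j : ZMod P) * hh y = hh x := by
    rw [hj, ZMod.natCast_val, ZMod.cast_id, div_mul_cancel₀ _ hy0]
  obtain ⟨e1, e2⟩ := hyz j
  have e3 : eps (((y : Q) ^ j)⁻¹) = 1 := by rw [map_inv, e2, inv_one]
  have hx0 : hh (x * ((y : Q) ^ j)⁻¹) = 0 := by
    rw [hmul _ _ hx e3, hinv _ e2, e1, hjv, add_neg_cancel]
  have hxe : eps (x * ((y : Q) ^ j)⁻¹) = 1 := by rw [map_mul, hx, e3, one_mul]
  have hce : ∀ z, eps z = 1 → eps (g * z * g⁻¹) = 1 := by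
    intro z hz
    rw [map_mul, map_mul, hz, mul_one, map_inv, mul_inv_cancel]
  have h1 : hh (g * (x * ((y : Q) ^ j)⁻¹) * g⁻¹) = 0 := by
    refine hzero _ (hce _ hxe) ?_
    have h2 : orderOf (g * (x * ((y : Q) ^ j)⁻¹) * g⁻¹) = orderOf (x * ((y : Q) ^ j)⁻¹) := by
      have h3 := orderOf_injective (MulAut.conj g).toMonoidHom (MulAut.conj g).injective (x * ((y : Q) ^ j)⁻¹)
      rw [← h3]
      rfl
    rw [h2]
    exact hcop _ hxe hx0
  have h2 : g * (y : Q) ^ j * g⁻¹ = ((y : Q) ^ j)⁻¹ := by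
    have h3 := hact ((y : Q) ^ j) (Y.pow_mem y.2 j) g
    rw [h3, hg, Units.val_neg, Units.val_one, zpow_neg_one]
  have h3 : g * x * g⁻¹ = (g * (x * ((y : Q) ^ j)⁻¹) * g⁻¹) * (g * (y : Q) ^ j * g⁻¹) := by group
  rw [h3, hmul _ _ (hce _ hxe) (hce _ e2), h1, h2, hinv _ e2, e1, hjv, zero_add]

namespace Hgt

variable {Q : Type u} [Group Q] {P : ℕ} {eps : Q →* ℤˣ} {h : Q → ZMod P}

theorem one (H : Hgt P eps h) : h 1 = 0 := H.zero 1 (map_one _) (by rw [orderOf_one]; exact Nat.coprime_one_left P)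

theorem inv (H : Hgt P eps h) {x : Q} (hx : eps x = 1) : h x⁻¹ = -h x := by
  have h1 := H.mul x x⁻¹ hx (by rw [map_inv, hx, inv_one])
  rw [mul_inv_cancel, H.one] at h1
  exact (neg_eq_of_add_eq_zero_right h1.symm).symm

theorem zpow (H : Hgt P eps h) {x : Q} (hx : eps x = 1) (j : ℤ) : h (x ^ j) = j * h x := by
  have he : ∀ j : ℤ, eps (x ^ j) = 1 := fun j => by rw [map_zpow, hx, one_zpow]
  induction j using Int.induction_on with
  | zero => rw [zpow_zero, H.one, Int.cast_zero, zero_mul]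
  | succ i ih =>
    rw [zpow_add_one, H.mul _ _ (he _) hx, ih]
    push_cast
    ring
  | pred i ih =>
    rw [zpow_sub_one, H.mul _ _ (he _) (by rw [map_inv, hx, inv_one]), ih, H.inv hx]
    push_cast
    ring

theorem sq (H : Hgt P eps h) (hP : P.Prime) (hP2 : 2 < P) {g : Q} (hg : eps g = -1) : h (g * g) = 0 := by
  have : Fact P.Prime := ⟨hP⟩
  have he : eps (g * g) = 1 := by rw [map_mul, hg]; decide
  have h1 := H.conj (g * g) g he hg
  rw [mul_assoc, mul_assoc, mul_inv_cancel, mul_one] at h1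
  have h2 : (2 : ZMod P) * h (g * g) = 0 := by
    rw [two_mul]
    nth_rewrite 1 [h1]
    exact neg_add_cancel _
  rcases mul_eq_zero.1 h2 with h3 | h3
  · exfalso
    have h4 : ((2 : ℕ) : ZMod P) = 0 := by exact_mod_cast h3
    rw [ZMod.natCast_eq_zero_iff] at h4
    exact absurd (Nat.le_of_dvd (by norm_num) h4) (by omega)
  · exact h3

/-- The conjugate of `al be⁻¹`. -/
theorem cj (H : Hgt P eps h) {al be : Q} (ha : eps al = -1) (hb : eps be = -1) :
    h (be⁻¹ * al) = -h (al * be⁻¹) := by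
  have he : eps (al * be⁻¹) = 1 := by rw [map_mul, map_inv, ha, hb]; decide
  have h1 := H.conj (al * be⁻¹) be⁻¹ he (by rw [map_inv, hb]; decide)
  rw [← h1]
  congr 1
  group

/-- The height relative to `be`. -/
noncomputable def _root_.Pool.Agent.Lib.MP_688fd0_co.SQ4.H95.rel (eps : Q →* ℤˣ) (h : Q → ZMod P) (be : Q) (w : Q) :
    ZMod P := if eps w = 1 then h w else h (w * be⁻¹)

end Hgt

section coll

variable {Q : Type u} [Group Q] (B : Lb.{u, v} Q) (a b : B.L) (eps : Q →* ℤˣ) (ha : eps (B.q a) = -1)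
  (hb : eps (B.q b) = -1)

theorem up_pos {x : Q} (hx : eps x = 1) : (upC B a b eps ha hb).U x = x * B.q a := by
  show (if eps x = 1 then x * B.q a else x * (B.q b)⁻¹) = _
  rw [if_pos hx]

theorem up_neg {x : Q} (hx : eps x = -1) : (upC B a b eps ha hb).U x = x * (B.q b)⁻¹ := by
  show (if eps x = 1 then x * B.q a else x * (B.q b)⁻¹) = _
  rw [if_neg (by rw [hx]; decide)]

/-- Powers of a permutation which is a right multiplication on a stable set. -/
theorem zpow_right {f : Equiv.Perm Q} {g : Q} {S : Q → Prop} (hS : ∀ x, S x ↔ S (x * g))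
    (hf : ∀ x, S x → f x = x * g) : ∀ (i : ℤ) (x : Q), S x → (f ^ i) x = x * g ^ i := by
  intro i
  induction i using Int.induction_on with
  | zero => intro x _; simp
  | succ i ih =>
    intro x hx
    rw [zpow_add_one, Equiv.Perm.mul_apply, hf x hx, ih _ ((hS x).1 hx), mul_assoc, ← zpow_one_add, add_comm 1]
  | pred i ih =>
    intro x hx
    have h1 : S (x * g⁻¹) := (hS _).2 (by rwa [inv_mul_cancel_right])
    have h2 : f⁻¹ x = x * g⁻¹ := by
      rw [Equiv.Perm.inv_eq_iff_eq, hf _ h1, inv_mul_cancel_right]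
    rw [zpow_sub_one, Equiv.Perm.mul_apply, h2, ih _ h1, mul_assoc]
    congr 1
    rw [zpow_sub_one]
    exact ((Commute.refl g).inv_left.zpow_right _).eq

theorem even_pos {x : Q} (hx : eps x = 1) (i : ℤ) :
    ((upC B a b eps ha hb).U ^ (2 * i)) x = x * (B.q a * (B.q b)⁻¹) ^ i := by
  have hg : eps (B.q a * (B.q b)⁻¹) = 1 := by rw [map_mul, map_inv, ha, hb]; decide
  rw [zpow_mul]
  refine zpow_right (S := fun x => eps x = 1) (fun x => by rw [map_mul, hg, mul_one]) (fun x hx => ?_) i x hx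
  have h1 : eps (x * B.q a) = -1 := by rw [map_mul, hx, ha, one_mul]
  rw [show (2 : ℤ) = 1 + 1 by rfl, zpow_add, zpow_one, Equiv.Perm.mul_apply, up_pos B a b eps ha hb hx,
    up_neg B a b eps ha hb h1, mul_assoc]

theorem even_neg {x : Q} (hx : eps x = -1) (i : ℤ) :
    ((upC B a b eps ha hb).U ^ (2 * i)) x = x * ((B.q b)⁻¹ * B.q a) ^ i := by
  have hg : eps ((B.q b)⁻¹ * B.q a) = 1 := by rw [map_mul, map_inv, ha, hb]; decide
  rw [zpow_mul]
  refine zpow_right (S := fun x => eps x = -1) (fun x => by rw [map_mul, hg, mul_one]) (fun x hx => ?_) i x hx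
  have h1 : eps (x * (B.q b)⁻¹) = 1 := by rw [map_mul, hx, map_inv, hb]; decide
  rw [show (2 : ℤ) = 1 + 1 by rfl, zpow_add, zpow_one, Equiv.Perm.mul_apply, up_neg B a b eps ha hb hx,
    up_pos B a b eps ha hb h1, mul_assoc]

theorem odd_pos {x : Q} (hx : eps x = 1) (i : ℤ) :
    ((upC B a b eps ha hb).U ^ (2 * i + 1)) x = x * (B.q a * (B.q b)⁻¹) ^ i * B.q a := by
  have hg : eps (B.q a * (B.q b)⁻¹) = 1 := by rw [map_mul, map_inv, ha, hb]; decide
  rw [add_comm, zpow_add, zpow_one, Equiv.Perm.mul_apply, even_pos B a b eps ha hb hx,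
    up_pos B a b eps ha hb (by rw [map_mul, hx, map_zpow, hg, one_zpow, one_mul])]

theorem odd_neg {x : Q} (hx : eps x = -1) (i : ℤ) :
    ((upC B a b eps ha hb).U ^ (2 * i + 1)) x = x * ((B.q b)⁻¹ * B.q a) ^ i * (B.q b)⁻¹ := by
  have hg : eps ((B.q b)⁻¹ * B.q a) = 1 := by rw [map_mul, map_inv, ha, hb]; decide
  rw [add_comm, zpow_add, zpow_one, Equiv.Perm.mul_apply, even_neg B a b eps ha hb hx,
    up_neg B a b eps ha hb (by rw [map_mul, hx, map_zpow, hg, one_zpow, mul_one])]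

/-- COLLISIONS. -/
theorem coll {P : ℕ} (hP : P.Prime) (hP2 : 2 < P) {h : Q → ZMod P} (H : Hgt P eps h) {D : Subgroup Q}
    (hD : ∀ d ∈ D, eps d = 1 ∧ h d = 0) {x w : Q} {j : ℤ}
    (hm : (((upC B a b eps ha hb).U ^ j) x)⁻¹ * (x * w) ∈ D) :
    ∃ i : ℤ, rel eps h (B.q b) w = i * h (B.q a * (B.q b)⁻¹) ∧ |j| - 1 ≤ 2 * |i| ∧ 2 * |i| ≤ |j| + 1 ∧
      (eps w = 1 → 2 * |i| = |j|) ∧ (eps w = -1 → i = 0 ∨ i = 1 → |j| ≤ 1) := by
  have hg : eps (B.q a * (B.q b)⁻¹) = 1 := by rw [map_mul, map_inv, ha, hb]; decide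
  have hg' : eps ((B.q b)⁻¹ * B.q a) = 1 := by rw [map_mul, map_inv, ha, hb]; decide
  have hcj := H.cj ha hb
  have hbi : eps (B.q b)⁻¹ = -1 := by rw [map_inv, hb]; decide
  obtain ⟨i, hi | hi⟩ := Int.even_or_odd' j
  · subst hi
    rcases Int.units_eq_one_or (eps x) with hx | hx
    · rw [even_pos B a b eps ha hb hx] at hm
      obtain ⟨d1, d2⟩ := hD _ hm
      set d := (x * (B.q a * (B.q b)⁻¹) ^ i)⁻¹ * (x * w) with hd
      have hw : w = (B.q a * (B.q b)⁻¹) ^ i * d := by rw [hd]; group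
      have he : eps ((B.q a * (B.q b)⁻¹) ^ i) = 1 := by rw [map_zpow, hg, one_zpow]
      have hew : eps w = 1 := by rw [hw, map_mul, he, d1, one_mul]
      refine ⟨i, ?_, ?_, ?_, ?_, ?_⟩
      · rw [rel, if_pos hew, hw, H.mul _ _ he d1, H.zpow hg, d2, add_zero]
      · rw [abs_mul]; norm_num
      · rw [abs_mul]; norm_num
      · intro _; rw [abs_mul]; norm_num
      · intro h1; rw [hew] at h1; exact absurd h1 (by decide)
    · rw [even_neg B a b eps ha hb hx] at hm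
      obtain ⟨d1, d2⟩ := hD _ hm
      set d := (x * ((B.q b)⁻¹ * B.q a) ^ i)⁻¹ * (x * w) with hd
      have hw : w = ((B.q b)⁻¹ * B.q a) ^ i * d := by rw [hd]; group
      have he : eps (((B.q b)⁻¹ * B.q a) ^ i) = 1 := by rw [map_zpow, hg', one_zpow]
      have hew : eps w = 1 := by rw [hw, map_mul, he, d1, one_mul]
      refine ⟨-i, ?_, ?_, ?_, ?_, ?_⟩
      · rw [rel, if_pos hew, hw, H.mul _ _ he d1, H.zpow hg', d2, hcj]
        push_cast
        ring
      · rw [abs_mul, abs_neg]; norm_num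
      · rw [abs_mul, abs_neg]; norm_num
      · intro _; rw [abs_mul, abs_neg]; norm_num
      · intro h1; rw [hew] at h1; exact absurd h1 (by decide)
  · subst hi
    rcases Int.units_eq_one_or (eps x) with hx | hx
    · rw [odd_pos B a b eps ha hb hx] at hm
      obtain ⟨d1, d2⟩ := hD _ hm
      set d := (x * (B.q a * (B.q b)⁻¹) ^ i * B.q a)⁻¹ * (x * w) with hd
      have hw : w = (B.q a * (B.q b)⁻¹) ^ i * B.q a * d := by rw [hd]; group
      have he : eps ((B.q a * (B.q b)⁻¹) ^ i) = 1 := by rw [map_zpow, hg, one_zpow]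
      have hew : eps w = -1 := by rw [hw, map_mul, map_mul, he, d1, ha]; decide
      have hc := H.conj d (B.q b) d1 hb
      have hce : eps (B.q b * d * (B.q b)⁻¹) = 1 := by rw [map_mul, map_mul, map_inv, d1, hb]; decide
      have hwb : w * (B.q b)⁻¹ = (B.q a * (B.q b)⁻¹) ^ i * ((B.q a * (B.q b)⁻¹) * (B.q b * d * (B.q b)⁻¹)) := by
        rw [hw]; group
      refine ⟨i + 1, ?_, ?_, ?_, ?_, ?_⟩
      · rw [rel, if_neg (by rw [hew]; decide), hwb, H.mul _ _ he (by rw [map_mul, hg, hce, one_mul]), H.zpow hg,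
          H.mul _ _ hg hce, hc, d2]
        push_cast
        ring
      · rcases abs_cases (2 * i + 1) with h1 | h1 <;> rcases abs_cases (i + 1) with h2 | h2 <;> omega
      · rcases abs_cases (2 * i + 1) with h1 | h1 <;> rcases abs_cases (i + 1) with h2 | h2 <;> omega
      · intro h1; rw [hew] at h1; exact absurd h1 (by decide)
      · intro _ h1
        rcases abs_cases (2 * i + 1) with h2 | h2 <;> omega
    · rw [odd_neg B a b eps ha hb hx] at hm
      obtain ⟨d1, d2⟩ := hD _ hm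
      set d := (x * ((B.q b)⁻¹ * B.q a) ^ i * (B.q b)⁻¹)⁻¹ * (x * w) with hd
      have hw : w = ((B.q b)⁻¹ * B.q a) ^ i * (B.q b)⁻¹ * d := by rw [hd]; group
      have he : eps (((B.q b)⁻¹ * B.q a) ^ i) = 1 := by rw [map_zpow, hg', one_zpow]
      have hew : eps w = -1 := by rw [hw, map_mul, map_mul, he, d1, hbi]; decide
      have hc := H.conj d (B.q b) d1 hb
      have hce : eps (B.q b * d * (B.q b)⁻¹) = 1 := by rw [map_mul, map_mul, map_inv, d1, hb]; decide
      have hs := H.sq hP hP2 hbi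
      have hse : eps ((B.q b)⁻¹ * (B.q b)⁻¹) = 1 := by rw [map_mul, hbi]; decide
      have hwb : w * (B.q b)⁻¹ = ((B.q b)⁻¹ * B.q a) ^ i * (((B.q b)⁻¹ * (B.q b)⁻¹) * (B.q b * d * (B.q b)⁻¹)) := by
        rw [hw]; group
      refine ⟨-i, ?_, ?_, ?_, ?_, ?_⟩
      · rw [rel, if_neg (by rw [hew]; decide), hwb, H.mul _ _ he (by rw [map_mul, hse, hce, one_mul]), H.zpow hg',
          H.mul _ _ hse hce, hs, hc, d2, hcj]
        push_cast
        ring
      · rcases abs_cases (2 * i + 1) with h1 | h1 <;> rcases abs_cases (-i) with h2 | h2 <;> omega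
      · rcases abs_cases (2 * i + 1) with h1 | h1 <;> rcases abs_cases (-i) with h2 | h2 <;> omega
      · intro h1; rw [hew] at h1; exact absurd h1 (by decide)
      · intro _ h1
        rcases abs_cases (2 * i + 1) with h2 | h2 <;> omega

end coll

/-- Two reflections of different heights. -/
theorem exists_pair {Q : Type u} [Group Q] {B : Lb.{u, v} Q} {P : ℕ} {eps : Q →* ℤˣ} {h : Q → ZMod P}
    (H : Hgt P eps h) (hgen : closure (Set.range B.q) = ⊤) (hrot : ∀ s, eps (B.q s) = 1 → h (B.q s) = 0)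
    {y : Q} (hy : eps y = 1) (hy0 : h y ≠ 0) :
    ∃ s t, eps (B.q s) = -1 ∧ eps (B.q t) = -1 ∧ h (B.q s * (B.q t)⁻¹) ≠ 0 := by
  by_contra hcon
  push Not at hcon
  let T : Q → Prop := fun x => (eps x = 1 ∧ h x = 0) ∨
    (eps x = -1 ∧ ∃ t, eps (B.q t) = -1 ∧ h (x * (B.q t)⁻¹) = 0)
  have step : ∀ s x, T x → T (B.q s * x) := by
    intro s x hx
    rcases Int.units_eq_one_or (eps (B.q s)) with hs | hs
    · rcases hx with ⟨h1, h2⟩ | ⟨h1, t, h2, h3⟩
      · exact Or.inl ⟨by rw [map_mul, hs, h1, one_mul], by rw [H.mul _ _ hs h1, hrot s hs, h2, add_zero]⟩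
      · refine Or.inr ⟨by rw [map_mul, hs, h1, one_mul], t, h2, ?_⟩
        rw [mul_assoc, H.mul _ _ hs (by rw [map_mul, map_inv, h1, h2]; decide), hrot s hs, h3, add_zero]
    · rcases hx with ⟨h1, h2⟩ | ⟨h1, t, h2, h3⟩
      · refine Or.inr ⟨by rw [map_mul, hs, h1, mul_one], s, hs, ?_⟩
        rw [H.conj _ _ h1 hs, h2, neg_zero]
      · refine Or.inl ⟨by rw [map_mul, hs, h1]; decide, ?_⟩
        have hti : eps (B.q (B.inv t)) = -1 := by rw [B.q_inv, map_inv, h2]; decide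
        have h4 := hcon s (B.inv t) hs hti
        rw [B.q_inv, inv_inv] at h4
        have h5 := H.cj h1 h2
        rw [h3, neg_zero] at h5
        have h6 : B.q s * x = (B.q s * B.q t) * ((B.q t)⁻¹ * x) := by group
        rw [h6, H.mul _ _ (by rw [map_mul, hs, h2]; decide) (by rw [map_mul, map_inv, h1, h2]; decide), h4, h5,
          add_zero]
  have hall : ∀ x, T x := by
    intro x
    have hx : x ∈ closure (Set.range B.q) := by rw [hgen]; exact mem_top x
    induction hx using Subgroup.closure_induction_left with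
    | one => exact Or.inl ⟨map_one _, H.one⟩
    | mul_left x hx y _ ih =>
      obtain ⟨s, rfl⟩ := hx
      exact step s y ih
    | inv_mul_cancel x hx y _ ih =>
      obtain ⟨s, rfl⟩ := hx
      rw [← B.q_inv]
      exact step _ y ih
  rcases hall y with ⟨-, h2⟩ | ⟨h1, -⟩
  · exact hy0 h2
  · rw [hy] at h1
    exact absurd h1 (by decide)

theorem fin_eq' {Q : Type u} [Group Q] (B : Lb.{u, v} Q) (l : List B.L) :
    ∀ x : Q, B.fin x l = x * H87.wd B.q l := by
  induction l with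
  | nil => intro x; simp [Lb.fin, H87.wd]
  | cons g l ih =>
    intro x
    show B.fin (x * B.q g) l = _
    rw [ih]
    simp [H87.wd, mul_assoc]

/-- The words of length at most `t`. -/
theorem wd_ofFn {Q L : Type*} [Group Q] (q : L → Q) (t : ℕ) (l : List L) (hl : l.length ≤ t) :
    (List.ofFn fun i : Fin t => (l[(i : ℕ)]?).elim 1 q).prod = H87.wd q l := by
  show (List.ofFn fun i : Fin t => (l[(i : ℕ)]?).elim 1 q).prod = (l.map q).prod
  have e1 : (List.ofFn fun i : Fin t => (l[(i : ℕ)]?).elim 1 q) =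
      l.map q ++ List.replicate (t - l.length) 1 := by
    refine List.ext_getElem (by simp; omega) fun i hi1 hi2 => ?_
    rw [List.getElem_ofFn, List.getElem_append]
    split_ifs with hlt
    · rw [List.length_map] at hlt
      rw [List.getElem_map, List.getElem?_eq_getElem hlt]
      rfl
    · rw [List.length_map] at hlt
      rw [List.getElem?_eq_none (not_lt.1 hlt), List.getElem_replicate]
      rfl
  rw [e1, List.prod_append, List.prod_replicate, one_pow, mul_one]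

/-- The choice of `a`, `b` and of the scale. -/
theorem scale {Q : Type u} [Group Q] {B : Lb.{u, v} Q} [Fintype B.L] {P : ℕ} (hP : P.Prime)
    (hP2 : 2 < P) {eps : Q →* ℤˣ} {h : Q → ZMod P} (H : Hgt P eps h) (hgen : closure (Set.range B.q) = ⊤)
    (hrot : ∀ s, eps (B.q s) = 1 → h (B.q s) = 0) {y : Q} (hy : eps y = 1) (hy0 : h y ≠ 0)
    (s : ℕ → ℕ) (hs : Monotone s) (r : ℕ) (hr : (Fintype.card B.L + 1) ^ 8 ≤ r)
    (hW : s (r + 1) ^ (Fintype.card B.L ^ 2) + 1 < P) (hW2 : 2 * s (r + 1) < P) :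
    ∃ (a b : B.L) (ha : eps (B.q a) = -1) (hb : eps (B.q b) = -1), h (B.q a * (B.q b)⁻¹) ≠ 0 ∧ ∃ i ≤ r,
      ∀ D : Subgroup Q, (∀ d ∈ D, eps d = 1 ∧ h d = 0) → ∀ W, 1 ≤ W → W ≤ s (i + 1) →
        SinkU (upC B a b eps ha hb) D W ∧ SepU (upC B a b eps ha hb) D (2 * s i + 1) W ∧
          LevU (upC B a b eps ha hb) D W := by
  classical
  have : Fact P.Prime := ⟨hP⟩
  obtain ⟨s₀, t₀, hs₀, ht₀, hst⟩ := exists_pair H hgen hrot hy hy0
  let n : B.L × B.L → ZMod P := fun p =>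
    if eps (B.q p.1) = -1 ∧ eps (B.q p.2) = -1 then h (B.q p.1 * (B.q p.2)⁻¹) else 0
  have hn : ∀ s t, eps (B.q s) = -1 → eps (B.q t) = -1 → n (s, t) = h (B.q s * (B.q t)⁻¹) :=
    fun s t h1 h2 => if_pos ⟨h1, h2⟩
  obtain ⟨⟨a, b⟩, hab, hsink⟩ := H87.exists_sink hP n ⟨(s₀, t₀), by rw [hn _ _ hs₀ ht₀]; exact hst⟩ (s (r + 1))
    (by rw [Fintype.card_prod, ← pow_two]; exact hW)
  have hc : eps (B.q a) = -1 ∧ eps (B.q b) = -1 := by
    by_contra h1
    exact hab (if_neg h1)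
  obtain ⟨ha, hb⟩ := hc
  rw [hn _ _ ha hb] at hab hsink
  set δ := h (B.q a * (B.q b)⁻¹) with hδ
  let w : (Fin 8 → Option B.L) → Q := fun f => (List.ofFn fun i => (f i).elim 1 B.q).prod
  obtain ⟨i, hi, hg⟩ := H87.exists_gap hP (fun f => rel eps h (B.q b) (w f)) hab s hs r (by
    rw [Fintype.card_fun, Fintype.card_fin, Fintype.card_option]
    exact hr) hW2
  refine ⟨a, b, ha, hb, hab, i, hi, fun D hD W hW1 hWi => ?_⟩
  have hsi : s (i + 1) ≤ s (r + 1) := hs (by omega)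
  have hzero : ∀ j : ℤ, (j : ZMod P) * δ = 0 → 2 * |j| ≤ W + 1 → j = 0 := by
    intro j h1 h2
    have h3 : ((j : ℤ) : ZMod P) = ((0 : ℤ) : ZMod P) := by
      rw [(mul_eq_zero.1 h1).resolve_right hab, Int.cast_zero]
    refine H87.eq_of_small h3 ?_
    rw [abs_zero]
    have : (2 * (s (r + 1) : ℕ) : ℤ) < P := by exact_mod_cast hW2
    omega
  refine ⟨?_, ?_, ?_⟩
  · -- Sink
    intro x g j hj1 hj2 hm
    obtain ⟨m, e1, e2, e3, e4, e5⟩ := coll B a b eps ha hb hP hP2 H hD hm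
    rcases Int.units_eq_one_or (eps (B.q g)) with hg1 | hg1
    · rw [rel, if_pos hg1, hrot g hg1] at e1
      have h1 := hzero m e1.symm (by omega)
      have h2 := e4 hg1
      rw [h1, abs_zero] at h2
      omega
    · rw [rel, if_neg (by rw [hg1]; decide)] at e1
      have h1 : m ≠ 0 ∧ m ≠ 1 := by
        constructor
        · intro h2; have := e5 hg1 (Or.inl h2); omega
        · intro h2; have := e5 hg1 (Or.inr h2); omega
      rcases lt_or_ge 1 |m| with h2 | h2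
      · refine hsink (g, b) m (by omega) ?_ ?_
        · have : (2 * (s (i + 1) : ℕ) : ℤ) ≤ 2 * s (r + 1) := by exact_mod_cast Nat.mul_le_mul_left 2 hsi
          omega
        · rw [hn _ _ hg1 hb]; exact e1
      · have h3 : m = -1 := by
          rcases abs_cases m with h4 | h4 <;> omega
        refine hsink (g, a) (-2) (by norm_num) ?_ ?_
        · have : (2 * (s (i + 1) : ℕ) : ℤ) ≤ 2 * s (r + 1) := by exact_mod_cast Nat.mul_le_mul_left 2 hsi
          rw [abs_neg, abs_two]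
          omega
        · rw [hn _ _ hg1 ha]
          have h5 : B.q g * (B.q a)⁻¹ = (B.q g * (B.q b)⁻¹) * (B.q a * (B.q b)⁻¹)⁻¹ := by group
          have h6 : eps (B.q a * (B.q b)⁻¹) = 1 := by rw [map_mul, map_inv, ha, hb]; decide
          rw [h5, H.mul _ _ (by rw [map_mul, map_inv, hg1, hb]; decide) (by rw [map_inv, h6, inv_one]), H.inv h6,
            e1, h3, ← hδ]
          push_cast
          ring
  · -- Sep
    intro x l j hl hj1 hj2 hm
    rw [fin_eq'] at hm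
    obtain ⟨m, e1, e2, e3, -, -⟩ := coll B a b eps ha hb hP hP2 H hD hm
    refine hg (fun i => l[(i : ℕ)]?) m ?_ ?_ ?_
    · push_cast at hj1; omega
    · omega
    · show rel eps h (B.q b) (List.ofFn fun i : Fin 8 => (l[(i : ℕ)]?).elim 1 B.q).prod = _
      rw [wd_ofFn B.q 8 l hl]
      exact e1
  · -- Lev
    intro x j hj0 hj hm
    have hm' : (((upC B a b eps ha hb).U ^ j) x)⁻¹ * (x * 1) ∈ D := by rw [mul_one]; exact hm
    obtain ⟨m, e1, e2, e3, e4, -⟩ := coll B a b eps ha hb hP hP2 H hD hm'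
    rw [rel, if_pos (map_one _), H.one] at e1
    have h1 := hzero m e1.symm (by omega)
    have h2 := e4 (map_one _)
    rw [h1, abs_zero] at h2
    exact hj0 (abs_eq_zero.1 (by omega))

open SQ2.H41 (PP PE sc sc_mono dbl sg pp_sg)

/-- the factor of the windows -/
def HC (ρ k r : ℕ) : ℕ := 200 * (r + 2) ^ 2 * 2 ^ r * (2 ^ ((sg ρ k r + k + 20) ^ 4) + 4 * k)

theorem pe_HC : PE HC := by
  have h4 : PE (fun _ _ r => 2 ^ r) := (PP.const 2).pe.pow PP.r
  have h5 : PE (fun ρ k r => 2 ^ ((sg ρ k r + k + 20) ^ 4)) :=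
    (PP.const 2).pe.pow (((pp_sg.add PP.k).add (PP.const 20)).pow 4)
  exact (((PP.const 200).mul ((PP.r.add (PP.const 2)).pow 2)).pe.mul h4).mul (h5.add ((PP.const 4).mul PP.k).pe)

theorem one_le_HC (ρ k r : ℕ) : 1 ≤ HC ρ k r := by
  unfold HC
  have : 0 < 200 * (r + 2) ^ 2 * 2 ^ r * (2 ^ ((sg ρ k r + k + 20) ^ 4) + 4 * k) := by positivity
  omega

theorem needC_le (ρ r k c : ℕ) : needC ρ r k (2 * c + 1) ≤ HC ρ k r * (c + 1) := by
  unfold needC lamC HC sg
  generalize 2 ^ (((ρ + 2) ^ 4 * k + k + 20) ^ 4) = T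
  have h1 : T * (2 * c + 1 + 1) + 4 * k ≤ 2 * ((T + 4 * k) * (c + 1)) := by nlinarith
  calc 100 * (r + 2) ^ 2 * 2 ^ r * (T * (2 * c + 1 + 1) + 4 * k)
      ≤ 100 * (r + 2) ^ 2 * 2 ^ r * (2 * ((T + 4 * k) * (c + 1))) := Nat.mul_le_mul_left _ h1
    _ = _ := by ring

end H95

open SQ2.H41 (PP PE sc sc_mono dbl) in
open H95 in
/-- SCALE for type C1. -/
theorem scaleC : ScaleCS := by
  obtain ⟨c₁, hc₁⟩ := pe_HC
  obtain ⟨c₂, hc₂⟩ := H87.scale_pow c₁ 8
  have hWpe : PE (fun ρ k r => (ρ + 2) ^ 40 * k ^ 20 * ((2 * HC ρ k r) ^ ((ρ ^ 2 + 1) ^ 8 + 2)) ^ 2) := by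
    have h0 : PE HC := ⟨c₁, hc₁⟩
    have h1 : PE (fun ρ k r => (2 * HC ρ k r) ^ ((ρ ^ 2 + 1) ^ 8 + 2)) :=
      ((PP.const 2).pe.mul h0).pow ((((PP.ρ.pow 2).add (PP.const 1)).pow 8).add (PP.const 2))
    exact (((PP.ρ.add (PP.const 2)).pow 40).mul (PP.k.pow 20)).pe.mul (h1.pow (PP.const 2))
  obtain ⟨c₃, hc₃⟩ := hWpe
  refine ⟨max c₂ (c₃ + 1), ?_⟩
  intro Q _ _ B k r P Y eps hfin hk hgen hP hPk hYn hYc hact hPQ hord hPbig
  have hft : Fintype B.L := Fintype.ofFinite B.L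
  have hPf : Fact P.Prime := ⟨hP⟩
  set ρ := Nat.card B.L with hρ
  have hρ' : Fintype.card B.L = ρ := by rw [hρ, Nat.card_eq_fintype_card]
  set x := k + ρ + r + 1 with hx
  have hx2 : 2 ≤ x := by omega
  set H := HC ρ k r with hH
  have hH1 : 1 ≤ H := one_le_HC ρ k r
  have hP2 : 2 ^ x ^ c₂ ≤ P := (Nat.pow_le_pow_right (by norm_num)
    (Nat.pow_le_pow_right (by omega) (le_max_left _ _))).trans hPbig
  have hP3 : 2 < P := by
    have h1 : 2 ^ 2 ≤ 2 ^ (x ^ max c₂ (c₃ + 1)) := by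
      refine Nat.pow_le_pow_right (by norm_num) ?_
      calc 2 ≤ x ^ 1 := by rw [pow_one]; exact hx2
        _ ≤ x ^ max c₂ (c₃ + 1) := Nat.pow_le_pow_right (by omega) ((Nat.le_add_left 1 c₃).trans (le_max_right _ _))
    omega
  obtain ⟨b1, b2⟩ := hc₂ x (ρ ^ 2) H P hx2 (Nat.pow_le_pow_left (by omega) 2) (hc₁ ρ k r hk) hP2
  set r₀ := (ρ ^ 2 + 1) ^ 8 with hr₀
  have hseq := H87.scale_seq hH1 (s := sc H) (Nat.zero_le _) (fun i => le_rfl) (r₀ + 1)
  rw [show r₀ + 1 + 1 = r₀ + 2 by ring] at hseq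
  obtain ⟨h, Hh, y, hy, hy0⟩ := exists_hgt hP hP3 Y hYc eps hact hPQ
  have hcopr : ∀ g : Q, ¬ P ∣ orderOf g → (orderOf g).Coprime P := fun g hg => by
    rw [Nat.coprime_comm, hP.coprime_iff_not_dvd]; exact hg
  obtain ⟨a, b, ha, hb, hab, i, hi, hsc⟩ := H95.scale hP hP3 Hh hgen (fun s hs => Hh.zero _ hs (hcopr _ (hord s)))
    hy hy0 (sc H) (sc_mono hH1) r₀ (by
      rw [hρ', hr₀]
      refine Nat.pow_le_pow_left ?_ 8
      nlinarith)
    (by
      rw [hρ']
      exact lt_of_le_of_lt (Nat.succ_le_succ (Nat.pow_le_pow_left hseq _)) b1)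
    (lt_of_le_of_lt (Nat.mul_le_mul_left _ hseq) b2)
  refine ⟨a, b, ha, hb, ?_, fun D hD hDn hDe => ?_⟩
  · by_contra h1
    refine hab (Hh.zero _ ?_ (hcopr _ h1))
    rw [map_mul, map_inv, ha, hb]; decide
  · have hDh : ∀ d ∈ D, eps d = 1 ∧ h d = 0 := by
      intro d hd
      have h1 : eps d = 1 := MonoidHom.mem_ker.1 (hDe hd)
      refine ⟨h1, Hh.zero d h1 (hcopr _ fun h2 => hPk (h2.trans (dvd_trans ?_ hD)))⟩
      have h3 := orderOf_dvd_natCard (⟨d, hd⟩ : D)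
      rwa [Subgroup.orderOf_mk] at h3
    have hW1 : 1 ≤ sc H (i + 1) := by
      show 1 ≤ H * (sc H i + 1)
      exact Nat.one_le_iff_ne_zero.2 (Nat.mul_ne_zero (by omega) (by omega))
    obtain ⟨g1, g2, g3⟩ := hsc D hDh (sc H (i + 1)) hW1 le_rfl
    refine ⟨2 * sc H i + 1, sc H (i + 1), g1, g2, g3, needC_le ρ r k (sc H i), ?_⟩
    have h1 := H87.scale_seq hH1 (s := sc H) (Nat.zero_le _) (fun i => le_rfl) (i + 1)
    have h2 : sc H (i + 1) ≤ (2 * H) ^ ((ρ ^ 2 + 1) ^ 8 + 2) := by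
      refine h1.trans (Nat.pow_le_pow_right (by omega) ?_)
      omega
    calc (ρ + 2) ^ 40 * k ^ 20 * sc H (i + 1) ^ 2
        ≤ (ρ + 2) ^ 40 * k ^ 20 * ((2 * H) ^ ((ρ ^ 2 + 1) ^ 8 + 2)) ^ 2 :=
          Nat.mul_le_mul_left _ (Nat.pow_le_pow_left h2 2)
      _ ≤ 2 ^ (x ^ c₃) := hc₃ ρ k r hk
      _ < 2 ^ (x ^ (max c₂ (c₃ + 1))) := by
          refine Nat.pow_lt_pow_right (by norm_num) ?_
          have h3 := dbl hx2 c₃
          have h4 : 1 ≤ x ^ c₃ := Nat.one_le_pow _ _ (by omega)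
          have h5 : x ^ (c₃ + 1) ≤ x ^ (max c₂ (c₃ + 1)) :=
            Nat.pow_le_pow_right (by omega) (le_max_right _ _)
          omega
      _ ≤ P := hPbig

end Pool.Agent.Lib.MP_688fd0_co.SQ4
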