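import Pool.Agent.Lib.MP_688fd0_co.SQ4.H95.Count

/-!
RET for a union of families with two kinds of rungs (inner and cross): every step of the cap rung can be undone.
-/

set_option autoImplicit false

namespace Pool.Agent.Lib.MP_688fd0_co.SQ4

open Pool.Agent.Lib.MP_688fd0_co.SQ2.V Pool.Agent.Lib.MP_688fd0_co.SQ2.V.Puz

namespace RetU

section weights

variable {R : Type} [Fintype R]

open Classical in
/-- The total weight. -/
noncomputable def Wt (w : R → ℕ) (p : R → Prop) : ℕ := ∑ r, if p r then w r else 0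

theorem Wt_eq (w : R → ℕ) (p : R → Prop) [DecidablePred p] : Wt w p = ∑ r, if p r then w r else 0 := by
  unfold Wt
  refine Finset.sum_congr rfl fun r _ => ?_
  by_cases h : p r
  · rw [if_pos h, if_pos h]
  · rw [if_neg h, if_neg h]

theorem le_Wt {w : R → ℕ} {p : R → Prop} {r : R} (h : p r) : w r ≤ Wt w p := by
  classical
  have := Finset.single_le_sum (f := fun r => if p r then w r else 0) (fun _ _ => Nat.zero_le _) (Finset.mem_univ r)
  rw [Wt_eq]
  exact le_trans (le_of_eq (if_pos h).symm) this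

theorem Wt_mono {w : R → ℕ} {p q : R → Prop} (h : ∀ r, p r → q r) : Wt w p ≤ Wt w q := by
  classical
  refine Finset.sum_le_sum fun r _ => ?_
  by_cases h1 : p r
  · rw [if_pos h1, if_pos (h r h1)]
  · rw [if_neg h1]; exact Nat.zero_le _

theorem Wt_congr {w : R → ℕ} {p q : R → Prop} (h : ∀ r, p r ↔ q r) : Wt w p = Wt w q :=
  le_antisymm (Wt_mono fun r => (h r).1) (Wt_mono fun r => (h r).2)

theorem Wt_split (w : R → ℕ) (p q : R → Prop) :
    Wt w p = Wt w (fun r => p r ∧ q r) + Wt w (fun r => p r ∧ ¬ q r) := by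
  classical
  unfold Wt
  rw [← Finset.sum_add_distrib]
  refine Finset.sum_congr rfl fun r _ => ?_
  by_cases h1 : p r <;> by_cases h2 : q r <;> simp [h1, h2]

theorem Wt_imp {w : R → ℕ} {p q : R → Prop} (h : ∀ r, p r → q r) (hle : Wt w q ≤ Wt w p) {r : R} (hq : q r)
    (hw : 0 < w r) : p r := by
  classical
  by_contra hp
  have h1 := Wt_split w q p
  have h2 : Wt w p ≤ Wt w (fun r => q r ∧ p r) := Wt_mono fun r hr => ⟨h r hr, hr⟩
  have h3 : w r ≤ Wt w (fun r => q r ∧ ¬ p r) := le_Wt (p := fun r => q r ∧ ¬ p r) ⟨hq, hp⟩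
  omega

theorem Wt_const {w : R → ℕ} {p : R → Prop} {c : ℕ} (h : ∀ r, p r → w r = c) : Wt w p = {r | p r}.ncard * c := by
  classical
  have h1 : Wt w p = ∑ r, if p r then c else 0 := Finset.sum_congr rfl fun r _ => by
    by_cases h1 : p r
    · rw [if_pos h1, if_pos h1, h r h1]
    · rw [if_neg h1, if_neg h1]
  rw [h1, ← Finset.sum_filter, Finset.sum_const, smul_eq_mul]
  congr 1
  rw [← Set.ncard_coe_finset]
  congr 1
  ext r
  simp

theorem Wt_tau {w : R → ℕ} (τ : Equiv.Perm R) (hw : ∀ r, w (τ r) = w r) (p : R → Prop) :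
    Wt w (fun r => p (τ r)) = Wt w p := by
  classical
  unfold Wt
  rw [← Equiv.sum_comp τ fun r => if p r then w r else 0]
  refine Finset.sum_congr rfl fun r _ => ?_
  by_cases h : p (τ r)
  · rw [if_pos h, if_pos h, hw]
  · rw [if_neg h, if_neg h]

theorem Wt_pos {w : R → ℕ} {p : R → Prop} {r : R} (h : p r) (hw : 0 < w r) : 0 < Wt w p := by
  by_contra h0
  have h1 : Wt w p = 0 := by omega
  have h2 : Wt w (fun _ => False) = 0 := by
    classical
    unfold Wt
    exact Finset.sum_eq_zero fun r _ => if_neg not_false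
  exact Wt_imp (p := fun _ => False) (q := p) (fun _ h => h.elim) (by rw [h1, h2]) h hw

theorem exists_of_Wt {w : R → ℕ} {p : R → Prop} (h : 0 < Wt w p) : ∃ r, p r := by
  classical
  by_contra hno
  push Not at hno
  have : Wt w p = 0 := Finset.sum_eq_zero fun r _ => if_neg (hno r)
  omega

end weights

section main

variable {S R C : Type} [Fintype S] [DecidableEq S] [Fintype R] {P : Puz S R} {fam : R → C} {In : R → Prop}

theorem Wt_two (w : R → ℕ) (p : R → Prop) : ∑ v : S, Wt w (fun r => p r ∧ P.On r v) = 2 * Wt w p := by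
  classical
  rw [Wt_eq w p, Finset.sum_congr rfl fun v _ => Wt_eq w fun r => p r ∧ P.On r v, Finset.sum_comm, Finset.mul_sum]
  refine Finset.sum_congr rfl fun r _ => ?_
  by_cases h : p r
  · rw [if_pos h]
    have h1 : ∀ v : S, (if p r ∧ P.On r v then w r else 0) =
        (if v = P.x r then w r else 0) + (if v = P.y r then w r else 0) := by
      intro v
      by_cases hx : v = P.x r
      · have hy : ¬ v = P.y r := fun h' => P.ne r (hx.symm.trans h')
        rw [if_pos ⟨h, Or.inl hx⟩, if_pos hx, if_neg hy, add_zero]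
      · by_cases hy : v = P.y r
        · rw [if_pos ⟨h, Or.inr hy⟩, if_neg hx, if_pos hy, zero_add]
        · rw [if_neg (fun h' => h'.2.elim hx hy), if_neg hx, if_neg hy]
    rw [Finset.sum_congr rfl fun v _ => h1 v, Finset.sum_add_distrib, Finset.sum_ite_eq' Finset.univ (P.x r),
      Finset.sum_ite_eq' Finset.univ (P.y r), if_pos (Finset.mem_univ _), if_pos (Finset.mem_univ _), two_mul]
  · rw [if_neg h, mul_zero]
    exact Finset.sum_eq_zero fun v _ => if_neg fun h' => h h'.1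

/-- The hypotheses: `d₁` inner and `d₂` cross rungs of the family at every strand touched by it; inner and cross rungs are
not parallel. -/
structure Hyp (P : Puz S R) (fam : R → C) (In : R → Prop) (d₁ d₂ : C → ℕ) : Prop where
  fam_tau : ∀ r, fam (P.tau r) = fam r
  in_tau : ∀ r, In (P.tau r) ↔ In r
  clo : ∀ c (A : S → Prop), (∀ r, fam r = c → (A (P.x r) ↔ A (P.y r))) → ∀ r, fam r = c → A (P.x r) →
    A (P.x (P.tau r))
  h₁ : ∀ r, 0 < d₁ (fam r)
  h₂ : ∀ r, 0 < d₂ (fam r)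
  deg₁ : ∀ r v, P.On r v → {q | (fam q = fam r ∧ In q) ∧ P.On q v}.ncard = d₁ (fam r)
  deg₂ : ∀ r v, P.On r v → {q | (fam q = fam r ∧ ¬ In q) ∧ P.On q v}.ncard = d₂ (fam r)
  par : ∀ r q v, fam q = fam r → In r → ¬ In q → P.On r v → P.On q v → P.oth r v ≠ P.oth q v

variable {d₁ d₂ : C → ℕ}

open Classical in
/-- The weight. -/
noncomputable def wg (fam : R → C) (In : R → Prop) (d₁ d₂ : C → ℕ) (r : R) : ℕ := if In r then d₂ (fam r) else d₁ (fam r)

omit [Fintype S] [Fintype R] in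
theorem wg_pos (H : Hyp P fam In d₁ d₂) (r : R) : 0 < wg fam In d₁ d₂ r := by
  unfold wg
  split_ifs
  · exact H.h₂ r
  · exact H.h₁ r

omit [Fintype S] [Fintype R] in
theorem wg_tau (H : Hyp P fam In d₁ d₂) (r : R) : wg fam In d₁ d₂ (P.tau r) = wg fam In d₁ d₂ r := by
  unfold wg
  by_cases h : In r
  · rw [if_pos h, if_pos ((H.in_tau r).2 h), H.fam_tau]
  · rw [if_neg h, if_neg fun h' => h ((H.in_tau r).1 h'), H.fam_tau]

omit [Fintype S] in
/-- The total weight of a family at a strand. -/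
theorem tot_in (H : Hyp P fam In d₁ d₂) (r : R) (v : S) (hv : P.On r v) :
    Wt (wg fam In d₁ d₂) (fun q => (fam q = fam r ∧ P.On q v) ∧ In q) = d₁ (fam r) * d₂ (fam r) := by
  have h1 := Wt_const (w := wg fam In d₁ d₂) (p := fun q => (fam q = fam r ∧ P.On q v) ∧ In q) (c := d₂ (fam r))
    (fun q hq => by unfold wg; rw [if_pos hq.2, hq.1.1])
  rw [h1]
  congr 1
  rw [← H.deg₁ r v hv]
  congr 1
  ext q
  simp only [Set.mem_ofPred_eq]
  tauto

omit [Fintype S] in
theorem tot_out (H : Hyp P fam In d₁ d₂) (r : R) (v : S) (hv : P.On r v) :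
    Wt (wg fam In d₁ d₂) (fun q => (fam q = fam r ∧ P.On q v) ∧ ¬ In q) = d₁ (fam r) * d₂ (fam r) := by
  have h1 := Wt_const (w := wg fam In d₁ d₂) (p := fun q => (fam q = fam r ∧ P.On q v) ∧ ¬ In q) (c := d₁ (fam r))
    (fun q hq => by unfold wg; rw [if_neg hq.2, hq.1.1])
  rw [h1, mul_comm]
  congr 1
  rw [← H.deg₂ r v hv]
  congr 1
  ext q
  simp only [Set.mem_ofPred_eq]
  tauto

omit [Fintype S] in
/-- The rungs in one direction have at most half of the weight. -/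
theorem dir_le (H : Hyp P fam In d₁ d₂) (r : R) (v u : S) (hv : P.On r v) :
    Wt (wg fam In d₁ d₂) (fun q => (fam q = fam r ∧ P.On q v) ∧ P.oth q v = u) ≤ d₁ (fam r) * d₂ (fam r) := by
  by_cases h : ∃ q, fam q = fam r ∧ P.On q v ∧ P.oth q v = u ∧ In q
  · obtain ⟨q, h1, h2, h3, h4⟩ := h
    rw [← tot_in H r v hv]
    refine Wt_mono fun q' ⟨⟨h5, h6⟩, h7⟩ => ⟨⟨h5, h6⟩, ?_⟩
    by_contra h8
    exact H.par q q' v (h5.trans h1.symm) h4 h8 h2 h6 (h3.trans h7.symm)
  · push Not at h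
    rw [← tot_out H r v hv]
    exact Wt_mono fun q' ⟨⟨h5, h6⟩, h7⟩ => ⟨⟨h5, h6⟩, h q' h5 h6 h7⟩

variable {X : R → Prop}

/-- Two directions of caps. -/
def Two (P : Puz S R) (X : R → Prop) (v : S) : Prop :=
  ∃ a b, X a ∧ X b ∧ P.On a v ∧ P.On b v ∧ P.oth a v ≠ P.oth b v

omit [Fintype S] [Fintype R] in
theorem Two.nb {v : S} (h : Two P X v) {r : R} (hr : P.On r v) : Nb P X r := by
  obtain ⟨a, b, ka, kb, oa, ob, hne⟩ := h
  by_cases h1 : P.oth a v = P.oth r v
  · exact ⟨b, v, kb, ob, hr, fun h2 => hne (h1.trans h2.symm)⟩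
  · exact ⟨a, v, ka, oa, hr, h1⟩

/-- The equality in the double counting. -/
theorem eq_at (H : Hyp P fam In d₁ d₂) (hX : Closed P X) (c : C) (v : S) :
    Wt (wg fam In d₁ d₂) (fun r => (fam r = c ∧ Nb P X r) ∧ P.On r v) ≤
      Wt (wg fam In d₁ d₂) (fun r => (fam r = c ∧ X r) ∧ P.On r v) := by
  classical
  -- locally `X ≤ N`
  have hle : ∀ v, Wt (wg fam In d₁ d₂) (fun r => (fam r = c ∧ X r) ∧ P.On r v) ≤
      Wt (wg fam In d₁ d₂) (fun r => (fam r = c ∧ Nb P X r) ∧ P.On r v) := by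
    intro v
    by_cases h0 : ∃ q, fam q = c ∧ X q ∧ P.On q v
    swap
    · push Not at h0
      exact Wt_mono fun r ⟨⟨h1, h2⟩, h3⟩ => absurd h3 (h0 r h1 h2)
    obtain ⟨q, hq1, hq2, hq3⟩ := h0
    by_cases h2 : Two P X v
    · exact Wt_mono fun r ⟨⟨h3, _⟩, h5⟩ => ⟨⟨h3, h2.nb h5⟩, h5⟩
    · have hone : ∀ r, X r → P.On r v → P.oth r v = P.oth q v := by
        intro r h3 h4
        by_contra h5
        exact h2 ⟨r, q, h3, hq2, h4, hq3, h5⟩
      have a1 : Wt (wg fam In d₁ d₂) (fun r => (fam r = c ∧ X r) ∧ P.On r v) ≤ d₁ c * d₂ c := by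
        rw [← hq1]
        refine le_trans (Wt_mono ?_) (dir_le H q v (P.oth q v) hq3)
        rintro r ⟨⟨h3, h4⟩, h5⟩
        exact ⟨⟨h3, h5⟩, hone r h4 h5⟩
      have a2 := Wt_split (wg fam In d₁ d₂) (fun r => fam r = fam q ∧ P.On r v) In
      rw [tot_in H q v hq3, tot_out H q v hq3] at a2
      have a3 := Wt_split (wg fam In d₁ d₂) (fun r => fam r = fam q ∧ P.On r v) (fun r => P.oth r v = P.oth q v)
      have a4 := dir_le H q v (P.oth q v) hq3
      have a5 : Wt (wg fam In d₁ d₂) (fun r => (fam r = fam q ∧ P.On r v) ∧ ¬ P.oth r v = P.oth q v) ≤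
          Wt (wg fam In d₁ d₂) (fun r => (fam r = c ∧ Nb P X r) ∧ P.On r v) := by
        refine Wt_mono ?_
        rintro r ⟨⟨h3, h4⟩, h5⟩
        exact ⟨⟨h3.trans hq1, q, v, hq2, hq3, h4, fun h6 => h5 h6.symm⟩, h4⟩
      rw [← hq1] at a1
      rw [hq1] at a1 a2 a3 a4 a5
      omega
  have hsum : ∑ v : S, Wt (wg fam In d₁ d₂) (fun r => (fam r = c ∧ Nb P X r) ∧ P.On r v) ≤
      ∑ v : S, Wt (wg fam In d₁ d₂) (fun r => (fam r = c ∧ X r) ∧ P.On r v) := by
    rw [Wt_two (wg fam In d₁ d₂) (fun r => fam r = c ∧ Nb P X r), Wt_two (wg fam In d₁ d₂) (fun r => fam r = c ∧ X r)]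
    refine Nat.mul_le_mul_left 2 ?_
    rw [← Wt_tau P.tau (wg_tau H) fun r => fam r = c ∧ X r]
    refine Wt_mono ?_
    rintro r ⟨h1, a, v, h2, h3⟩
    exact ⟨(H.fam_tau r).trans h1, hX a r v h2 h3⟩
  by_contra hlt
  push Not at hlt
  have : ∑ v : S, Wt (wg fam In d₁ d₂) (fun r => (fam r = c ∧ X r) ∧ P.On r v) <
      ∑ v : S, Wt (wg fam In d₁ d₂) (fun r => (fam r = c ∧ Nb P X r) ∧ P.On r v) :=
    Finset.sum_lt_sum (fun v _ => hle v) ⟨v, Finset.mem_univ v, hlt⟩
  omega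

/-- All strands with a cap have two directions. -/
theorem two_of (H : Hyp P fam In d₁ d₂) (hX : Closed P X) {q₀ : R} {v₀ : S} (h0 : X q₀) (h0' : P.On q₀ v₀) :
    Two P X v₀ := by
  classical
  by_contra hno
  set c := fam q₀ with hc
  -- the type of a strand with one direction
  have htype : ∀ (q : R) (v : S), fam q = c → X q → P.On q v → ¬ Two P X v →
      ∀ r, fam r = c → P.On r v → ((X r ↔ (In r ↔ In q)) ∧ (Nb P X r ↔ ¬ X r)) := by
    intro q v hq1 hq2 hq3 h2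
    have hone : ∀ r, X r → P.On r v → P.oth r v = P.oth q v := by
      intro r h3 h4
      by_contra h5
      exact h2 ⟨r, q, h3, hq2, h4, hq3, h5⟩
    have a0 := eq_at H hX (fam q) v
    have a1 : Wt (wg fam In d₁ d₂) (fun r => (fam r = fam q ∧ X r) ∧ P.On r v) ≤
        Wt (wg fam In d₁ d₂) (fun r => (fam r = fam q ∧ P.On r v) ∧ P.oth r v = P.oth q v) := by
      refine Wt_mono ?_
      rintro r ⟨⟨h3, h4⟩, h5⟩
      exact ⟨⟨h3, h5⟩, hone r h4 h5⟩
    have a2 := Wt_split (wg fam In d₁ d₂) (fun r => fam r = fam q ∧ P.On r v) In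
    rw [tot_in H q v hq3, tot_out H q v hq3] at a2
    have a3 := Wt_split (wg fam In d₁ d₂) (fun r => fam r = fam q ∧ P.On r v) (fun r => P.oth r v = P.oth q v)
    have a4 := dir_le H q v (P.oth q v) hq3
    have a5 : Wt (wg fam In d₁ d₂) (fun r => (fam r = fam q ∧ P.On r v) ∧ ¬ P.oth r v = P.oth q v) ≤
        Wt (wg fam In d₁ d₂) (fun r => (fam r = fam q ∧ Nb P X r) ∧ P.On r v) := by
      refine Wt_mono ?_
      rintro r ⟨⟨h3, h4⟩, h5⟩
      exact ⟨⟨h3, q, v, hq2, hq3, h4, fun h6 => h5 h6.symm⟩, h4⟩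
    -- the rungs in the direction of `q` are the caps
    have b1 : ∀ r, fam r = fam q → P.On r v → (X r ↔ P.oth r v = P.oth q v) := by
      intro r h3 h4
      constructor
      · exact fun h5 => hone r h5 h4
      · intro h5
        have := Wt_imp (w := wg fam In d₁ d₂) (p := fun r => (fam r = fam q ∧ X r) ∧ P.On r v)
          (q := fun r => (fam r = fam q ∧ P.On r v) ∧ P.oth r v = P.oth q v)
          (fun r ⟨⟨h3, h4⟩, h5⟩ => ⟨⟨h3, h5⟩, hone r h4 h5⟩) (by omega) ⟨⟨h3, h4⟩, h5⟩ (wg_pos H r)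
        exact this.1.2
    have b2 : ∀ r, fam r = fam q → P.On r v → (Nb P X r ↔ ¬ P.oth r v = P.oth q v) := by
      intro r h3 h4
      constructor
      · intro h5
        have := Wt_imp (w := wg fam In d₁ d₂) (p := fun r => (fam r = fam q ∧ P.On r v) ∧ ¬ P.oth r v = P.oth q v)
          (q := fun r => (fam r = fam q ∧ Nb P X r) ∧ P.On r v)
          (fun r ⟨⟨h3, h4⟩, h5⟩ => ⟨⟨h3, q, v, hq2, hq3, h4, fun h6 => h5 h6.symm⟩, h4⟩) (by omega)
          ⟨⟨h3, h5⟩, h4⟩ (wg_pos H r)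
        exact this.2
      · exact fun h5 => ⟨q, v, hq2, hq3, h4, fun h6 => h5 h6.symm⟩
    -- they are the rungs of the kind of `q`
    have b3 : ∀ r, fam r = fam q → P.On r v → (P.oth r v = P.oth q v ↔ (In r ↔ In q)) := by
      intro r h3 h4
      by_cases hq : In q
      · have e1 : ∀ r, (fam r = fam q ∧ P.On r v) ∧ P.oth r v = P.oth q v →
            (fam r = fam q ∧ P.On r v) ∧ In r := by
          rintro r ⟨⟨h3, h4⟩, h5⟩
          refine ⟨⟨h3, h4⟩, ?_⟩
          by_contra h6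
          exact H.par q r v h3 hq h6 hq3 h4 h5.symm
        constructor
        · intro h5
          have := e1 r ⟨⟨h3, h4⟩, h5⟩
          exact ⟨fun _ => hq, fun _ => this.2⟩
        · intro h5
          have e2 := tot_in H q v hq3
          exact (Wt_imp (w := wg fam In d₁ d₂) e1 (by omega) ⟨⟨h3, h4⟩, h5.2 hq⟩ (wg_pos H r)).2
      · have e1 : ∀ r, (fam r = fam q ∧ P.On r v) ∧ P.oth r v = P.oth q v →
            (fam r = fam q ∧ P.On r v) ∧ ¬ In r := by
          rintro r ⟨⟨h3, h4⟩, h5⟩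
          refine ⟨⟨h3, h4⟩, ?_⟩
          intro h6
          exact H.par r q v h3.symm h6 hq h4 hq3 h5
        constructor
        · intro h5
          have := e1 r ⟨⟨h3, h4⟩, h5⟩
          exact ⟨fun h => absurd h this.2, fun h => absurd h hq⟩
        · intro h5
          have e2 := tot_out H q v hq3
          exact (Wt_imp (w := wg fam In d₁ d₂) e1 (by omega) ⟨⟨h3, h4⟩, fun h6 => hq (h5.1 h6)⟩ (wg_pos H r)).2
    intro r h3 h4
    have h3' : fam r = fam q := h3.trans hq1.symm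
    refine ⟨(b1 r h3' h4).trans (b3 r h3' h4), ?_⟩
    rw [b2 r h3' h4, b1 r h3' h4]
  -- the strands of the type of `q₀`
  let A : S → Prop := fun v => ∀ r, fam r = c → P.On r v → ((X r ↔ (In r ↔ In q₀)) ∧ (Nb P X r ↔ ¬ X r))
  have hA0 : A v₀ := htype q₀ v₀ rfl h0 h0' hno
  have hstep : ∀ r v v', fam r = c → P.On r v → P.On r v' → A v → A v' := by
    intro r v v' hr hv hv' hA
    obtain ⟨hr1, hr2⟩ := hA r hr hv
    -- a cap at `v'`
    have hcap : ∃ q, fam q = c ∧ X q ∧ P.On q v' := by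
      by_cases hXr : X r
      · exact ⟨r, hr, hXr, hv'⟩
      · have h1 : Nb P X r := hr2.2 hXr
        have h2 := eq_at H hX c v'
        have h3 : 0 < Wt (wg fam In d₁ d₂) (fun r => (fam r = c ∧ Nb P X r) ∧ P.On r v') := Wt_pos ⟨⟨hr, h1⟩, hv'⟩ (wg_pos H r)
        obtain ⟨q, ⟨h4, h5⟩, h6⟩ := exists_of_Wt (w := wg fam In d₁ d₂) (p := fun r => (fam r = c ∧ X r) ∧ P.On r v') (by omega)
        exact ⟨q, h4, h5, h6⟩
    obtain ⟨q, hq1, hq2, hq3⟩ := hcap
    have hnt : ¬ Two P X v' := by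
      intro h2
      have h3 : Nb P X r := h2.nb hv'
      have h4 : X r := by
        have := Wt_imp (w := wg fam In d₁ d₂) (p := fun r => (fam r = c ∧ X r) ∧ P.On r v')
          (q := fun r => (fam r = c ∧ Nb P X r) ∧ P.On r v')
          (fun r ⟨⟨a, _⟩, b⟩ => ⟨⟨a, h2.nb b⟩, b⟩) (eq_at H hX c v') ⟨⟨hr, h3⟩, hv'⟩ (wg_pos H r)
        exact this.1.2
      exact (hr2.1 h3) h4
    have ht := htype q v' hq1 hq2 hq3 hnt
    -- the kinds agree
    have hkk : In q ↔ In q₀ := by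
      have h1 := (ht r hr hv').1
      by_cases h : X r <;> by_cases h' : In r <;> by_cases h'' : In q <;> by_cases h''' : In q₀ <;>
        simp_all
    intro r' h1 h2
    have h3 := ht r' h1 h2
    rw [hkk] at h3
    exact h3
  -- a rung of the other kind
  obtain ⟨r, hr1, hr2, hr3⟩ : ∃ r, fam r = c ∧ P.On r v₀ ∧ ¬ (In r ↔ In q₀) := by
    by_cases hq : In q₀
    · have h1 : 0 < {q | (fam q = fam q₀ ∧ ¬ In q) ∧ P.On q v₀}.ncard := by
        rw [H.deg₂ q₀ v₀ h0']; exact H.h₂ q₀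
      obtain ⟨r, ⟨h2, h3⟩, h4⟩ := (Set.ncard_pos (Set.toFinite _)).1 h1
      exact ⟨r, h2, h4, fun h => h3 (h.2 hq)⟩
    · have h1 : 0 < {q | (fam q = fam q₀ ∧ In q) ∧ P.On q v₀}.ncard := by
        rw [H.deg₁ q₀ v₀ h0']; exact H.h₁ q₀
      obtain ⟨r, ⟨h2, h3⟩, h4⟩ := (Set.ncard_pos (Set.toFinite _)).1 h1
      exact ⟨r, h2, h4, fun h => hq (h.1 h3)⟩
  obtain ⟨h1, h2⟩ := hA0 r hr1 hr2
  have h3 : ¬ X r := fun h => hr3 (h1.1 h)
  obtain ⟨a, v, h4, h5⟩ := h2.2 h3
  have h6 : X (P.tau r) := hX a r v h4 h5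
  have h7 : A (P.x r) := hstep r v₀ (P.x r) hr1 hr2 (Or.inl rfl) hA0
  have h8 : A (P.x (P.tau r)) := by
    refine H.clo c A (fun r' h => ⟨?_, ?_⟩) r hr1 h7
    · exact hstep r' _ _ h (Or.inl rfl) (Or.inr rfl)
    · exact hstep r' _ _ h (Or.inr rfl) (Or.inl rfl)
  obtain ⟨h9, -⟩ := h8 (P.tau r) ((H.fam_tau r).trans hr1) (Or.inl rfl)
  have h10 := h9.1 h6
  rw [H.in_tau] at h10
  exact hr3 h10

/-- The rungs at a strand with a cap are caps. -/
theorem all_at (H : Hyp P fam In d₁ d₂) (hX : Closed P X) {q₀ : R} {v : S} (h0 : X q₀) (h0' : P.On q₀ v) {r : R}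
    (hr : P.On r v) : X r := by
  have h2 := two_of H hX h0 h0'
  have := Wt_imp (w := wg fam In d₁ d₂) (p := fun q => (fam q = fam r ∧ X q) ∧ P.On q v)
    (q := fun q => (fam q = fam r ∧ Nb P X q) ∧ P.On q v)
    (fun q ⟨⟨a, _⟩, b⟩ => ⟨⟨a, h2.nb b⟩, b⟩) (eq_at H hX (fam r) v) ⟨⟨rfl, h2.nb hr⟩, hr⟩ (wg_pos H r)
  exact this.1.2

theorem conn_all (H : Hyp P fam In d₁ d₂) (hX : Closed P X) {q₀ : R} {v v' : S} (h0 : X q₀) (h0' : P.On q₀ v)
    (h : Relation.ReflTransGen (fun a b => ∃ r, P.On r a ∧ P.On r b) v v') : ∀ r, P.On r v' → X r := by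
  induction h with
  | refl => exact fun r hr => all_at H hX h0 h0' hr
  | tail _ h ih =>
    obtain ⟨q, h1, h2⟩ := h
    exact fun r hr => all_at H hX (ih q h1) h2 hr

/-- RET. -/
theorem ret (H : Hyp P fam In d₁ d₂) : RET P := by
  intro r q v ha
  let X : R → Prop := fun s => Relation.ReflTransGen (Nx P) (P.tau q) s
  have hX : Closed P X := fun a b v h h' => h.tail ⟨b, v, h', rfl⟩
  let A : S → Prop := fun u => Relation.ReflTransGen (fun a b => ∃ r, P.On r a ∧ P.On r b) (P.x q) u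
  have hA : A (P.x (P.tau q)) := by
    refine H.clo (fam q) A (fun r' _ => ⟨?_, ?_⟩) q rfl Relation.ReflTransGen.refl
    · exact fun h => h.tail ⟨r', Or.inl rfl, Or.inr rfl⟩
    · exact fun h => h.tail ⟨r', Or.inr rfl, Or.inl rfl⟩
  have hsymm : ∀ {a b : S}, Relation.ReflTransGen (fun a b => ∃ r, P.On r a ∧ P.On r b) a b →
      Relation.ReflTransGen (fun a b => ∃ r, P.On r a ∧ P.On r b) b a := by
    intro a b h
    induction h with
    | refl => exact Relation.ReflTransGen.refl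
    | tail _ h ih =>
      obtain ⟨s, h1, h2⟩ := h
      exact Relation.ReflTransGen.head ⟨s, h2, h1⟩ ih
  have hv : Relation.ReflTransGen (fun a b => ∃ r, P.On r a ∧ P.On r b) (P.x (P.tau q)) v :=
    (hsymm hA).tail ⟨q, Or.inl rfl, ha.2.1⟩
  exact conn_all H hX (q₀ := P.tau q) Relation.ReflTransGen.refl (Or.inl rfl) hv r ha.1

end main

end RetU

end Pool.Agent.Lib.MP_688fd0_co.SQ4
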