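import Pool.Agent.Lib.MP_688fd0_co.SQ4.IfaceV2
import Pool.Agent.Lib.MP_688fd0_co.SQ3.H98.KG
import Pool.Agent.Lib.MP_688fd0_co.SQ4.H95.RetU

/-!
Row RETX: all steps can be undone in a puzzle of families with cross rungs.
-/

set_option autoImplicit false

namespace Pool.Agent.Lib.MP_688fd0_co.SQ4.CV

open Pool.Agent.Lib.MP_688fd0_co.OSF Pool.Agent.Lib.MP_688fd0_co.SQ2 Pool.Agent.Lib.MP_688fd0_co.SQ3
open Pool.Agent.Lib.MP_688fd0_co.SQ4
open SQ2.V (Puz)

theorem oth_pair {S R : Type} [DecidableEq S] {P : Puz S R} {r q : R} {v : S} (hr : P.On r v) (hq : P.On q v)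
    (h : P.oth r v = P.oth q v) : (P.x r = P.x q ∧ P.y r = P.y q) ∨ (P.x r = P.y q ∧ P.y r = P.x q) := by
  unfold Puz.oth at h
  rcases hr with rfl | rfl
  · rw [if_pos rfl] at h
    rcases hq with h1 | h1
    · rw [if_pos h1] at h; exact Or.inl ⟨h1, h⟩
    · rw [if_neg fun h2 => P.ne q (h2.symm.trans h1)] at h; exact Or.inr ⟨h1, h⟩
  · rw [if_neg (P.ne r).symm] at h
    rcases hq with h1 | h1
    · rw [if_pos h1] at h; exact Or.inr ⟨h, h1⟩
    · rw [if_neg fun h2 => P.ne q (h2.symm.trans h1)] at h; exact Or.inl ⟨h, h1⟩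

/-- The number of rungs of one family at a strand. -/
theorem ncard_fam {C : Type} {Rc : C → Type} (c : C) (p : (Σ c, Rc c) → Prop) (p' : Rc c → Prop)
    (h : ∀ r : Rc c, p ⟨c, r⟩ ↔ p' r) (hp : ∀ r, p r → r.1 = c) : {r | p r}.ncard = {r | p' r}.ncard := by
  have h1 : {r | p r} = (Sigma.mk c) '' {r | p' r} := by
    ext r
    constructor
    · intro hr
      obtain ⟨c', r⟩ := r
      have : c' = c := hp _ hr
      subst this
      exact ⟨r, (h r).1 hr, rfl⟩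
    · rintro ⟨r', hr', rfl⟩
      exact (h r').2 hr'
  rw [h1, Set.ncard_image_of_injective _ sigma_mk_injective]

/-- RETX. -/
theorem retX : RetXS := by
  intro Q _ _ B a b eps D z k H F T hT
  choose s n M v y h hX using hT
  have hdeg := fun c => (hX c).deg
  choose d hd0 hd using hdeg
  have hY : ∀ (c : T.C) (r : T.Rc c) (u : {v // v ∈ F}), u = (T.X c).x r ∨ u = (T.X c).y r →
      Sh D (v c : Q) (u : Q) ∨ Sh D (y c : Q) (u : Q) := by
    intro c r u hu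
    rcases hu with rfl | rfl
    · exact (hX c).xY r
    · exact (hX c).yY r
  have key : RetU.Hyp T.P (fun r => r.1) (fun r => T.In r.1 r.2) d d := by
    refine ⟨fun _ => rfl, fun r => (hX r.1).tin r.2, ?_, fun r => hd0 r.1, fun r => hd0 r.1, ?_, ?_, ?_⟩
    · rintro c A hA ⟨c', r⟩ hc hr
      obtain rfl : c' = c := hc
      exact ((hX c').clo A fun r' => hA ⟨c', r'⟩ rfl).tau r hr
    · rintro ⟨c, r⟩ u hu
      rw [← (hd c u (hY c r u hu)).1]
      exact ncard_fam c _ _ (fun r' => ⟨fun h1 => ⟨h1.1.2, h1.2⟩, fun h1 => ⟨⟨rfl, h1.1⟩, h1.2⟩⟩) (fun r' h1 => h1.1.1)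
    · rintro ⟨c, r⟩ u hu
      rw [← (hd c u (hY c r u hu)).2]
      exact ncard_fam c _ _ (fun r' => ⟨fun h1 => ⟨h1.1.2, h1.2⟩, fun h1 => ⟨⟨rfl, h1.1⟩, h1.2⟩⟩) (fun r' h1 => h1.1.1)
    · rintro ⟨c, r⟩ ⟨c', q⟩ u hc hr hq hur huq he
      obtain rfl : c' = c := hc
      exact (hX c').par r q hr hq (oth_pair (P := T.P) hur huq he)
  exact Puz.RetK.of_strong (fun _ _ _ _ _ => trivial) fun r q v _ ha => RetU.ret key r q v ha

end Pool.Agent.Lib.MP_688fd0_co.SQ4.CV
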