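import Pool.Agent.Lib.MP_688fd0_co.SQ3.V.MP

/-!
Chapter V, type C1: reachability of the states is symmetric (RET).

Words are lists of pairs `(r', v)` (rung of the next cup, common strand); a letter which is not adjacent to the present cap
is skipped.
-/

set_option autoImplicit false

namespace Pool.Agent.Lib.MP_688fd0_co.SQ4

open Pool.Agent.Lib.MP_688fd0_co.SQ2.V Pool.Agent.Lib.MP_688fd0_co.SQ2.V.Puz

section defs

variable {S R : Type} [DecidableEq S] (P : Puz S R)

/-- The cap rung after one step. -/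
def Nx (r r₁ : R) : Prop := ∃ r' v, P.Adj r r' v ∧ r₁ = P.tau r'

/-- Every step of the cap rung can be undone by further steps. -/
def RET : Prop := ∀ r r' v, P.Adj r r' v → Relation.ReflTransGen (Nx P) (P.tau r') r

/-- The digraph of the cap rungs is strongly connected. -/
def SCon : Prop := ∀ r r', Relation.ReflTransGen (Nx P) r r'

theorem SCon.ret {P : Puz S R} (h : SCon P) : RET P := fun _ _ _ _ => h _ _

end defs

/-! ### LEMMA RET2 -/

section ret2

variable {S R : Type} [Fintype S] [DecidableEq S] [Fintype R] (P : Puz S R)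

/-- The strands touched by the rungs of kind `K` in `X`. -/
def Touch (X K : R → Prop) (v : S) : Prop := ∃ r, X r ∧ K r ∧ P.On r v

open Classical in
theorem card_on_le (r : R) (V : Finset S) : (V.filter fun v => P.On r v).card ≤ 2 := by
  refine le_trans (Finset.card_le_card (t := {P.x r, P.y r}) ?_) Finset.card_le_two
  intro v hv
  rw [Finset.mem_filter] at hv
  rw [Finset.mem_insert, Finset.mem_singleton]
  exact hv.2

open Classical in
theorem card_on_eq (r : R) (V : Finset S) (h : (V.filter fun v => P.On r v).card = 2) {v : S} (hv : P.On r v) :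
    v ∈ V := by
  have h1 : (V.filter fun v => P.On r v) ⊆ {P.x r, P.y r} := by
    intro v hv
    rw [Finset.mem_filter] at hv
    rw [Finset.mem_insert, Finset.mem_singleton]
    exact hv.2
  have h2 : (V.filter fun v => P.On r v) = {P.x r, P.y r} := by
    refine Finset.eq_of_subset_of_card_le h1 ?_
    rw [h]
    exact Finset.card_le_two
  have h3 : v ∈ (V.filter fun v => P.On r v) := by
    rw [h2, Finset.mem_insert, Finset.mem_singleton]
    exact hv
  exact (Finset.mem_filter.1 h3).1

open Classical in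
theorem card_on_full (r : R) (V : Finset S) (hx : P.x r ∈ V) (hy : P.y r ∈ V) :
    (V.filter fun v => P.On r v).card = 2 := by
  have h2 : (V.filter fun v => P.On r v) = {P.x r, P.y r} := by
    ext v
    rw [Finset.mem_filter, Finset.mem_insert, Finset.mem_singleton]
    constructor
    · exact fun h => h.2
    · rintro (rfl | rfl)
      · exact ⟨hx, Or.inl rfl⟩
      · exact ⟨hy, Or.inr rfl⟩
  rw [h2, Finset.card_pair (P.ne r)]

variable {P}

/-- Half of RET2. -/
theorem half {X K : R → Prop} (hX : ∀ r r' v, X r → P.Adj r r' v → X (P.tau r'))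
    (hK : ∀ r, ¬ K r → ¬ K (P.tau r))
    (hpar : ∀ r r' v, K r → ¬ K r' → P.On r v → P.On r' v → P.oth r v ≠ P.oth r' v)
    {d : ℕ} (hd : 0 < d) (hdeg : ∀ v, {r | ¬ K r ∧ P.On r v}.ncard = d) :
    {v | Touch P X K v}.ncard ≤ {v | Touch P X (fun r => ¬ K r) v}.ncard ∧
    ({v | Touch P X K v}.ncard = {v | Touch P X (fun r => ¬ K r) v}.ncard →
      (∀ r v w, ¬ K r → P.On r v → P.On r w → Touch P X K v → Touch P X K w) ∧
      (∀ r v, ¬ K r → P.On r v → Touch P X (fun r => ¬ K r) v → X r)) := by
  classical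
  set V1 : Finset S := Finset.univ.filter fun v => Touch P X K v with hV1
  set V2 : Finset S := Finset.univ.filter fun v => Touch P X (fun r => ¬ K r) v with hV2
  have c1 : {v | Touch P X K v}.ncard = V1.card := by
    rw [← Set.ncard_coe_finset]
    congr 1
    ext v
    simp [hV1]
  have c2 : {v | Touch P X (fun r => ¬ K r) v}.ncard = V2.card := by
    rw [← Set.ncard_coe_finset]
    congr 1
    ext v
    simp [hV2]
  have hdeg' : ∀ v, (Finset.univ.filter fun r => ¬ K r ∧ P.On r v).card = d := by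
    intro v
    rw [← hdeg v, ← Set.ncard_coe_finset]
    congr 1
    ext r
    simp
  -- the rungs of the other kind which touch `V1`
  set T : Finset R := Finset.univ.filter fun r => ¬ K r ∧ ∃ v ∈ V1, P.On r v with hT
  set X2 : Finset R := Finset.univ.filter fun r => X r ∧ ¬ K r with hX2
  have e1 : d * V1.card = ∑ r ∈ T, (V1.filter fun v => P.On r v).card := by
    have h1 := Finset.sum_card_bipartiteAbove_eq_sum_card_bipartiteBelow (s := T) (t := V1) (fun r v => P.On r v)
    have h2 : ∑ r ∈ T, (V1.filter fun v => P.On r v).card = ∑ v ∈ V1, (T.filter fun r => P.On r v).card := h1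
    rw [h2, Finset.sum_congr rfl (g := fun _ => d), Finset.sum_const, smul_eq_mul, mul_comm]
    intro v hv
    rw [← hdeg' v]
    congr 1
    ext r
    simp only [hT, Finset.mem_filter, Finset.mem_univ, true_and]
    constructor
    · exact fun h => ⟨h.1.1, h.2⟩
    · exact fun h => ⟨⟨h.1, v, hv, h.2⟩, h.2⟩
  have e2 : ∑ r ∈ T, (V1.filter fun v => P.On r v).card ≤ 2 * T.card := by
    calc _ ≤ ∑ r ∈ T, 2 := Finset.sum_le_sum fun r _ => card_on_le P r V1
      _ = 2 * T.card := by rw [Finset.sum_const, smul_eq_mul, mul_comm]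
  have e3 : T.card ≤ X2.card := by
    refine Finset.card_le_card_of_injOn P.tau ?_ (fun a _ b _ h => P.tau.injective h)
    intro r hr
    rw [Finset.mem_coe, hT, Finset.mem_filter] at hr
    obtain ⟨_, h1, v, hv, h2⟩ := hr
    rw [hV1, Finset.mem_filter] at hv
    obtain ⟨_, q, hq1, hq2, hq3⟩ := hv
    rw [Finset.mem_coe, hX2, Finset.mem_filter]
    exact ⟨Finset.mem_univ _, hX q r v hq1 ⟨hq3, h2, hpar q r v hq2 h1 hq3 h2⟩, hK r h1⟩
  have e4 : 2 * X2.card = ∑ v ∈ V2, (X2.filter fun r => P.On r v).card := by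
    have h1 := Finset.sum_card_bipartiteAbove_eq_sum_card_bipartiteBelow (s := X2) (t := V2) (fun r v => P.On r v)
    have h2 : ∑ r ∈ X2, (V2.filter fun v => P.On r v).card = ∑ v ∈ V2, (X2.filter fun r => P.On r v).card := h1
    rw [← h2, Finset.sum_congr rfl (g := fun _ => 2), Finset.sum_const, smul_eq_mul, mul_comm]
    intro r hr
    rw [hX2, Finset.mem_filter] at hr
    refine card_on_full P r V2 ?_ ?_
    · rw [hV2, Finset.mem_filter]
      exact ⟨Finset.mem_univ _, r, hr.2.1, hr.2.2, Or.inl rfl⟩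
    · rw [hV2, Finset.mem_filter]
      exact ⟨Finset.mem_univ _, r, hr.2.1, hr.2.2, Or.inr rfl⟩
  have e5' : ∀ v ∈ V2, (X2.filter fun r => P.On r v).card ≤ d := by
    intro v _
    rw [← hdeg' v]
    refine Finset.card_le_card ?_
    intro r hr
    simp only [hX2, Finset.mem_filter, Finset.mem_univ, true_and] at hr ⊢
    exact ⟨hr.1.2, hr.2⟩
  have e5 : ∑ v ∈ V2, (X2.filter fun r => P.On r v).card ≤ d * V2.card := by
    calc _ ≤ ∑ v ∈ V2, d := Finset.sum_le_sum e5'
      _ = d * V2.card := by rw [Finset.sum_const, smul_eq_mul, mul_comm]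
  have e6 : d * V1.card ≤ d * V2.card := by
    rw [e1]
    calc _ ≤ 2 * T.card := e2
      _ ≤ 2 * X2.card := Nat.mul_le_mul_left 2 e3
      _ ≤ _ := by rw [e4]; exact e5
  rw [c1, c2]
  refine ⟨Nat.le_of_mul_le_mul_left e6 hd, fun heq => ?_⟩
  have f1 : ∑ r ∈ T, (V1.filter fun v => P.On r v).card = ∑ r ∈ T, 2 := by
    rw [Finset.sum_const, smul_eq_mul, mul_comm]
    refine le_antisymm e2 ?_
    rw [← e1, heq]
    calc 2 * T.card ≤ 2 * X2.card := Nat.mul_le_mul_left 2 e3
      _ ≤ _ := by rw [e4]; exact e5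
  have f2 : ∑ v ∈ V2, (X2.filter fun r => P.On r v).card = ∑ v ∈ V2, d := by
    rw [Finset.sum_const, smul_eq_mul, mul_comm]
    refine le_antisymm e5 ?_
    rw [← heq, e1]
    calc _ ≤ 2 * T.card := e2
      _ ≤ 2 * X2.card := Nat.mul_le_mul_left 2 e3
      _ = _ := e4
  have g1 := (Finset.sum_eq_sum_iff_of_le fun r _ => card_on_le P r V1).1 f1
  have g2 := (Finset.sum_eq_sum_iff_of_le e5').1 f2
  refine ⟨?_, ?_⟩
  · intro r v w hr h1 h2 h3
    have hv : v ∈ V1 := by rw [hV1, Finset.mem_filter]; exact ⟨Finset.mem_univ _, h3⟩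
    have hrT : r ∈ T := by
      rw [hT, Finset.mem_filter]
      exact ⟨Finset.mem_univ _, hr, v, hv, h1⟩
    have := card_on_eq P r V1 (g1 r hrT) h2
    rw [hV1, Finset.mem_filter] at this
    exact this.2
  · intro r v hr h1 h2
    have hv : v ∈ V2 := by rw [hV2, Finset.mem_filter]; exact ⟨Finset.mem_univ _, h2⟩
    have h3 := g2 v hv
    have h4 : (X2.filter fun r => P.On r v) = Finset.univ.filter fun r => ¬ K r ∧ P.On r v := by
      refine Finset.eq_of_subset_of_card_le ?_ ?_
      · intro r hr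
        simp only [hX2, Finset.mem_filter, Finset.mem_univ, true_and] at hr ⊢
        exact ⟨hr.1.2, hr.2⟩
      · rw [h3, hdeg' v]
    have h5 : r ∈ (X2.filter fun r => P.On r v) := by
      rw [h4, Finset.mem_filter]
      exact ⟨Finset.mem_univ _, hr, h1⟩
    rw [hX2, Finset.mem_filter, Finset.mem_filter] at h5
    exact h5.1.2.1

/-- LEMMA RET2: a closed nonempty set of rungs is everything. -/
theorem ret2_closed {K : R → Prop} (hK : ∀ r, K (P.tau r) ↔ K r)
    (hpar : ∀ r r' v, K r → ¬ K r' → P.On r v → P.On r' v → P.oth r v ≠ P.oth r' v)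
    {d₁ d₂ : ℕ} (hd₁ : 0 < d₁) (hd₂ : 0 < d₂) (hdeg₁ : ∀ v, {r | K r ∧ P.On r v}.ncard = d₁)
    (hdeg₂ : ∀ v, {r | ¬ K r ∧ P.On r v}.ncard = d₂)
    (hC : ∀ v w, Relation.ReflTransGen (fun a b => ∃ r, P.On r a ∧ P.On r b) v w)
    {X : R → Prop} (hX : ∀ r r' v, X r → P.Adj r r' v → X (P.tau r')) (hne : ∃ r, X r) (r : R) : X r := by
  classical
  obtain ⟨a1, a2⟩ := half (K := K) hX (fun r h => fun h' => h ((hK r).1 h')) hpar hd₂ hdeg₂
  have hnn : (fun r => ¬ ¬ K r) = K := by funext r; simp
  obtain ⟨b1, b2⟩ := half (K := fun r => ¬ K r) hX (fun r h => by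
      rw [not_not] at h ⊢
      exact (hK r).2 h) (fun r r' v h h' h1 h2 => (hpar r' r v (not_not.1 h') h h2 h1).symm) hd₁
    (fun v => by
      rw [← hdeg₁ v]
      congr 1
      ext r
      simp)
  rw [hnn] at b1 b2
  have heq := le_antisymm a1 b1
  obtain ⟨a3, a4⟩ := a2 heq
  obtain ⟨b3, b4⟩ := b2 heq.symm
  -- `V1` is closed
  have hcl : ∀ v w, Touch P X K v → (∃ r, P.On r v ∧ P.On r w) → Touch P X K w := by
    rintro v w hv ⟨r, h1, h2⟩
    by_cases hr : K r
    · exact ⟨r, b4 r v (not_not.2 hr) h1 hv, hr, h2⟩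
    · exact a3 r v w hr h1 h2 hv
  have hex : ∃ v, Touch P X K v := by
    by_contra hno
    obtain ⟨r, hr⟩ := hne
    by_cases hk : K r
    · exact hno ⟨P.x r, r, hr, hk, Or.inl rfl⟩
    · have h0 : {v | Touch P X K v} = ∅ := by
        ext v
        simp only [Set.mem_setOf_eq, Set.mem_empty_iff_false, iff_false]
        exact fun h => hno ⟨v, h⟩
      rw [h0, Set.ncard_empty] at heq
      have h1 := (Set.ncard_eq_zero (Set.toFinite _)).1 heq.symm
      have h2 : P.x r ∈ {v | Touch P X (fun r => ¬ K r) v} := ⟨r, hr, hk, Or.inl rfl⟩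
      rw [h1] at h2
      exact h2
  obtain ⟨v₀, hv₀⟩ := hex
  have hall : ∀ w, Touch P X K w := by
    intro w
    induction hC v₀ w with
    | refl => exact hv₀
    | tail _ h ih => exact hcl _ _ ih h
  have h1 : {v | Touch P X K v} = Set.univ := by
    ext v
    simp only [Set.mem_setOf_eq, Set.mem_univ, iff_true]
    exact hall v
  have hall2 : ∀ w, Touch P X (fun r => ¬ K r) w := by
    intro w
    have h2 : {v | Touch P X (fun r => ¬ K r) v} = Set.univ := by
      refine Set.eq_of_subset_of_ncard_le (Set.subset_univ _) ?_ (Set.toFinite _)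
      rw [← heq, h1]
    have : w ∈ {v | Touch P X (fun r => ¬ K r) v} := by rw [h2]; exact Set.mem_univ _
    exact this
  by_cases hr : K r
  · exact b4 r (P.x r) (not_not.2 hr) (Or.inl rfl) (hall _)
  · exact a4 r (P.x r) hr (Or.inl rfl) (hall2 _)

/-- LEMMA RET2. -/
theorem ret2 {K : R → Prop} (hK : ∀ r, K (P.tau r) ↔ K r)
    (hpar : ∀ r r' v, K r → ¬ K r' → P.On r v → P.On r' v → P.oth r v ≠ P.oth r' v)
    {d₁ d₂ : ℕ} (hd₁ : 0 < d₁) (hd₂ : 0 < d₂) (hdeg₁ : ∀ v, {r | K r ∧ P.On r v}.ncard = d₁)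
    (hdeg₂ : ∀ v, {r | ¬ K r ∧ P.On r v}.ncard = d₂)
    (hC : ∀ v w, Relation.ReflTransGen (fun a b => ∃ r, P.On r a ∧ P.On r b) v w) : SCon P := by
  intro r r'
  exact ret2_closed hK hpar hd₁ hd₂ hdeg₁ hdeg₂ hC (X := fun q => Relation.ReflTransGen (Nx P) r q)
    (fun a b v h h' => h.tail ⟨b, v, h', rfl⟩) ⟨r, Relation.ReflTransGen.refl⟩ r'

end ret2

/-! ### Words and reachability -/

section words

variable {S R : Type} [DecidableEq S] {P : Puz S R} {Tok : Type}

open Classical in
/-- One letter: the step if the pair is adjacent, otherwise nothing. -/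
noncomputable def act (P : Puz S R) (c : R × S) (s : St S R Tok) : St S R Tok :=
  if P.Adj s.1 c.1 c.2 then P.step c.1 c.2 s else s

/-- The state after a word (first letter first). -/
noncomputable def runW (P : Puz S R) : List (R × S) → St S R Tok → St S R Tok
  | [], s => s
  | c :: l, s => runW P l (act P c s)

/-- Reachability. -/
def ReachW (P : Puz S R) (s₀ s : St S R Tok) : Prop := ∃ l : List (R × S), runW P l s₀ = s

theorem act_of {c : R × S} {s : St S R Tok} (h : P.Adj s.1 c.1 c.2) : act P c s = P.step c.1 c.2 s := if_pos h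

theorem act_not {c : R × S} {s : St S R Tok} (h : ¬ P.Adj s.1 c.1 c.2) : act P c s = s := if_neg h

theorem runW_append (l l' : List (R × S)) : ∀ (s : St S R Tok), runW P (l ++ l') s = runW P l' (runW P l s) := by
  induction l with
  | nil => intro s; rfl
  | cons ρ l ih => intro s; exact ih _

theorem ReachW.refl (s : St S R Tok) : ReachW P s s := ⟨[], rfl⟩

theorem ReachW.trans {s s' s'' : St S R Tok} (h : ReachW P s s') (h' : ReachW P s' s'') : ReachW P s s'' := by
  obtain ⟨l, rfl⟩ := h
  obtain ⟨l', rfl⟩ := h'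
  exact ⟨l ++ l', runW_append l l' s⟩

theorem reachW_act (c : R × S) (s : St S R Tok) : ReachW P s (act P c s) := ⟨[c], rfl⟩

theorem reachW_step {r' : R} {v : S} {s : St S R Tok} (h : P.Adj s.1 r' v) : ReachW P s (P.step r' v s) := by
  have := reachW_act (P := P) (r', v) s
  rwa [act_of (c := (r', v)) h] at this

theorem good_actW (c : R × S) {s : St S R Tok} (hg : P.Good s) : P.Good (act P c s) := by
  by_cases h : P.Adj s.1 c.1 c.2
  · rw [act_of h]
    exact good_step h hg
  · rw [act_not h]
    exact hg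

theorem good_runW (l : List (R × S)) : ∀ {s : St S R Tok}, P.Good s → P.Good (runW P l s) := by
  induction l with
  | nil => intro s h; exact h
  | cons ρ l ih => intro s h; exact ih (good_actW ρ h)

theorem ReachW.good {s s' : St S R Tok} (h : ReachW P s s') (hg : P.Good s) : P.Good s' := by
  obtain ⟨l, rfl⟩ := h
  exact good_runW l hg

/-- A word moves the placements by a permutation which depends on the first rung only. -/
theorem runW_perm (l : List (R × S)) : ∀ r : R, ∃ (r₁ : R) (σ : Equiv.Perm S), ∀ pos : Tok → S,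
    runW P l (r, pos) = (r₁, fun t => σ (pos t)) := by
  induction l with
  | nil => intro r; exact ⟨r, 1, fun pos => rfl⟩
  | cons c l ih =>
    intro r
    by_cases h : P.Adj r c.1 c.2
    · obtain ⟨r₁, σ, hσ⟩ := ih (P.tau c.1)
      refine ⟨r₁, σ * (P.T c.1 * P.J r c.1 c.2), fun pos => ?_⟩
      show runW P l (act P c (r, pos)) = _
      rw [act_of (s := (r, pos)) h]
      exact hσ _
    · obtain ⟨r₁, σ, hσ⟩ := ih r
      refine ⟨r₁, σ, fun pos => ?_⟩
      show runW P l (act P c (r, pos)) = _
      rw [act_not (s := (r, pos)) h]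
      exact hσ _

theorem runW_fst (l : List (R × S)) (r : R) (p p' : Tok → S) : (runW P l (r, p)).1 = (runW P l (r, p')).1 := by
  obtain ⟨r₁, σ, h⟩ := runW_perm (P := P) (Tok := Tok) l r
  rw [h, h]

/-- A walk of the rungs is realised by a word. -/
theorem word_of_walk {r r' : R} (h : Relation.ReflTransGen (Nx P) r r') (p : Tok → S) :
    ∃ l : List (R × S), (runW P l (r, p)).1 = r' := by
  induction h with
  | refl => exact ⟨[], rfl⟩
  | tail _ h ih =>
    obtain ⟨l, hl⟩ := ih
    obtain ⟨q, v, hq, rfl⟩ := h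
    refine ⟨l ++ [(q, v)], ?_⟩
    rw [runW_append]
    show (act P (q, v) (runW P l (r, p))).1 = _
    rw [act_of (by rw [hl]; exact hq)]
    rfl

/-- A closed walk can be repeated until all the tokens are back. -/
theorem reachW_of_loop [Finite S] {r : R} (l : List (R × S)) (p : Tok → S) (h : (runW P l (r, p)).1 = r) :
    ReachW P (runW P l (r, p)) (r, p) := by
  obtain ⟨r₁, σ, hσ⟩ := runW_perm (P := P) (Tok := Tok) l r
  have hr : r₁ = r := by
    have := hσ p
    rw [this] at h
    exact h
  subst hr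
  have hk : ∀ k, ReachW P (r₁, p) (r₁, fun t => (σ ^ k) (p t)) := by
    intro k
    induction k with
    | zero => exact ReachW.refl _
    | succ k ih =>
      refine ih.trans ⟨l, ?_⟩
      rw [hσ]
      refine Prod.ext rfl ?_
      funext t
      rw [pow_succ']
      rfl
  have hk' : ∀ k, ReachW P (r₁, fun t => σ (p t)) (r₁, fun t => (σ ^ (k + 1)) (p t)) := by
    intro k
    induction k with
    | zero =>
      rw [zero_add, pow_one]
      exact ReachW.refl _
    | succ k ih =>
      refine ih.trans ⟨l, ?_⟩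
      rw [hσ]
      refine Prod.ext rfl ?_
      funext t
      rw [pow_succ' σ (k + 1)]
      rfl
  have ho : 0 < orderOf σ := orderOf_pos σ
  have h1 := hk' (orderOf σ - 1)
  rw [show orderOf σ - 1 + 1 = orderOf σ by omega, pow_orderOf_eq_one] at h1
  rw [hσ]
  exact h1

/-- Every step can be undone. -/
theorem reachW_step_back [Finite S] (hR : RET P) {r r' : R} {v : S} (ha : P.Adj r r' v) (p : Tok → S) :
    ReachW P (P.step r' v (r, p)) (r, p) := by
  obtain ⟨l, hl⟩ := word_of_walk (P := P) (hR r r' v ha) (fun t => P.T r' (P.J r r' v (p t)))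
  have h1 : runW P ((r', v) :: l) (r, p) = runW P l (P.step r' v (r, p)) := by
    show runW P l (act P (r', v) (r, p)) = _
    rw [act_of (s := (r, p)) (c := (r', v)) ha]
  have h2 := reachW_of_loop (P := P) ((r', v) :: l) p (by rw [h1]; exact hl)
  rw [h1] at h2
  exact ReachW.trans ⟨l, rfl⟩ h2

theorem reachW_act_back [Finite S] (hR : RET P) (c : R × S) (s : St S R Tok) : ReachW P (act P c s) s := by
  by_cases h : P.Adj s.1 c.1 c.2
  · rw [act_of h]
    exact reachW_step_back hR h s.2
  · rw [act_not h]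
    exact ReachW.refl _

/-- Reachability is symmetric. -/
theorem ReachW.symm [Finite S] (hR : RET P) {s s' : St S R Tok} (h : ReachW P s s') : ReachW P s' s := by
  obtain ⟨l, rfl⟩ := h
  induction l generalizing s with
  | nil => exact ReachW.refl s
  | cons c l ih => exact (ih (s := act P c s)).trans (reachW_act_back hR c s)

theorem reachW_step_iff [Finite S] (hR : RET P) {s₀ : St S R Tok} {r r' : R} {v : S}
    (ha : P.Adj r r' v) (pos : Tok → S) :
    ReachW P s₀ (r, pos) ↔ ReachW P s₀ (P.tau r', fun t => P.T r' (P.J r r' v (pos t))) := by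
  constructor
  · intro h
    exact h.trans (reachW_step (s := (r, pos)) ha)
  · intro h
    exact h.trans (reachW_step_back hR ha pos)

end words

end Pool.Agent.Lib.MP_688fd0_co.SQ4
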